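import Pool.Graph.R_seed8.H843R2.KZ.Final

/-!
Reduced pairs, bad pairs (those giving a representation) and truncated digit conditions.
-/

set_option autoImplicit false

namespace Pool.Agent.H79.KZ

open Finset Pool.Agent.H843R2.KZ

/-- the representations `n = x^2 + y^2 - z^2` with all squares at most `n` -/
def reps (n : ℕ) : Set (ℤ × ℤ × ℤ) :=
  {v | (n : ℤ) = v.1 ^ 2 + v.2.1 ^ 2 - v.2.2 ^ 2 ∧ v.1 ^ 2 ≤ n ∧ v.2.1 ^ 2 ≤ n ∧ v.2.2 ^ 2 ≤ n}

lemma reps_finite (n : ℕ) : (reps n).Finite := by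
  have h : ∀ a : ℤ, a ^ 2 ≤ n → a ∈ Set.Icc (-(n : ℤ)) n := by
    intro a ha
    have : |a| ≤ n := by
      have h1 : |a| ≤ a ^ 2 := by
        rw [← sq_abs]
        rcases eq_or_ne a 0 with h | h
        · rw [h]; norm_num
        · have : 1 ≤ |a| := Int.one_le_abs h
          nlinarith
      linarith
    exact ⟨(abs_le.1 this).1, (abs_le.1 this).2⟩
  refine Set.Finite.subset ((Set.finite_Icc (-(n : ℤ)) n).prod
    ((Set.finite_Icc (-(n : ℤ)) n).prod (Set.finite_Icc (-(n : ℤ)) n))) ?_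
  rintro ⟨a, b, c⟩ ⟨-, h1, h2, h3⟩
  exact ⟨h a h1, h b h2, h c h3⟩

/-- a pair is bad if it is reduced and `k`, `(n - x^2)/k` have the same parity -/
def Bad (n : ℕ) (P : ℤ × ℤ) : Prop :=
  Red n P.1 P.2 ∧ ∃ l : ℤ, P.2 * l = n - P.1 ^ 2 ∧ Even (P.2 - l)

/-- elementary facts about reduced pairs -/
lemma red_facts {n : ℕ} {x k : ℤ} (h : Red n x k) : (0 : ℝ) < k ∧ (k : ℝ) < x + √(n : ℝ) ∧
    √(n : ℝ) - k < x ∧ (x : ℝ) < √(n : ℝ) ∧ 0 < x ∧ x ^ 2 < n ∧
    ∀ l : ℤ, k * l = n - x ^ 2 → 0 < l ∧ (k + l) ^ 2 < 4 * (n : ℤ) := by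
  obtain ⟨hk, -, h1, h2, h3⟩ := h
  have hkR : (0 : ℝ) < k := by exact_mod_cast hk
  set s := √(n : ℝ) with hs
  have hs2 : s ^ 2 = n := Real.sq_sqrt (Nat.cast_nonneg n)
  have hs0 : 0 ≤ s := Real.sqrt_nonneg _
  have a1 : (k : ℝ) < x + s := by rwa [lt_div_iff₀ hkR, one_mul] at h1
  have a2 : -(k : ℝ) < x - s := by
    rw [lt_div_iff₀ hkR] at h2
    linarith
  have a3 : (x : ℝ) - s < 0 := by
    have := (div_lt_iff₀ hkR).1 h3
    linarith
  have hx0 : (0 : ℝ) < x := by linarith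
  have hx2 : (x : ℝ) ^ 2 < n := by nlinarith
  have hx2' : x ^ 2 < (n : ℤ) := by exact_mod_cast hx2
  refine ⟨hkR, a1, by linarith, by linarith, by exact_mod_cast hx0, hx2', ?_⟩
  intro l hl
  have hlR : (k : ℝ) * l = (n : ℝ) - (x : ℝ) ^ 2 := by exact_mod_cast hl
  have hl0 : (0 : ℝ) < l := by
    by_contra hc
    push Not at hc
    nlinarith [mul_nonneg hkR.le (neg_nonneg.2 hc)]
  have b : ((k : ℝ) + l) < 2 * s := by
    have h4 : 0 < ((x : ℝ) - (k - s)) * (x + (k - s)) := mul_pos (by linarith) (by linarith)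
    have h5 : (k : ℝ) * (k + l) < k * (2 * s) := by nlinarith
    exact lt_of_mul_lt_mul_left h5 hkR.le
  have c : ((k : ℝ) + l) ^ 2 < 4 * n := by nlinarith
  exact ⟨by exact_mod_cast hl0, by exact_mod_cast c⟩

open Classical in
/-- the reduced pairs -/
noncomputable def redF (n : ℕ) : Finset (ℤ × ℤ) :=
  ((Icc (0 : ℤ) n) ×ˢ (Icc (0 : ℤ) n)).filter (fun P => Red n P.1 P.2)

open Classical in
/-- the bad pairs -/
noncomputable def badF (n : ℕ) : Finset (ℤ × ℤ) := (redF n).filter (fun P => Bad n P)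

lemma mem_redF {n : ℕ} {P : ℤ × ℤ} : P ∈ redF n ↔ Red n P.1 P.2 := by
  classical
  unfold redF
  rw [mem_filter]
  refine ⟨fun h => h.2, fun h => ⟨?_, h⟩⟩
  obtain ⟨h1, -, -, -, h5, h6, h7⟩ := red_facts h
  obtain ⟨l, hl⟩ := h.2.1
  have h8 := (h7 l hl.symm).1
  have hk : 0 < P.2 := h.1
  rw [mem_product, mem_Icc, mem_Icc]
  refine ⟨⟨h5.le, by nlinarith⟩, hk.le, ?_⟩
  nlinarith [sq_nonneg P.1]

lemma mem_badF {n : ℕ} {P : ℤ × ℤ} : P ∈ badF n ↔ Bad n P := by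
  classical
  unfold badF
  rw [mem_filter, mem_redF]
  exact ⟨fun h => h.2, fun h => ⟨h.1, h⟩⟩

/-- every bad pair gives a representation -/
theorem badF_card (n : ℕ) : (badF n).card ≤ (reps n).ncard := by
  classical
  rw [Set.ncard_eq_toFinset_card _ (reps_finite n)]
  refine Finset.card_le_card_of_injOn
    (fun P => (P.1, (P.2 + ((n : ℤ) - P.1 ^ 2) / P.2) / 2, (P.2 - ((n : ℤ) - P.1 ^ 2) / P.2) / 2))
    ?_ ?_
  · intro P hP
    have hP' : Bad n P := mem_badF.1 hP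
    obtain ⟨hred, l, hl, hev⟩ := hP'
    obtain ⟨x, k⟩ := P
    simp only at hred hl hev
    obtain ⟨-, -, -, -, -, h6, h7⟩ := red_facts hred
    obtain ⟨h8, h9⟩ := h7 l hl
    have hk : 0 < k := hred.1
    have e1 : ((n : ℤ) - x ^ 2) / k = l := by
      rw [← hl]; exact Int.mul_ediv_cancel_left l hk.ne'
    obtain ⟨z, hz⟩ := hev
    have hkl : k = l + (z + z) := by linarith
    have e2 : (k + l) / 2 = l + z := by omega
    have e3 : (k - l) / 2 = z := by omega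
    simp only [Set.Finite.coe_toFinset]
    show (x, (k + ((n : ℤ) - x ^ 2) / k) / 2, (k - ((n : ℤ) - x ^ 2) / k) / 2) ∈ reps n
    rw [e1, e2, e3]
    have hnn : (n : ℤ) = x ^ 2 + (l + z) ^ 2 - z ^ 2 := by
      have : (n : ℤ) = x ^ 2 + k * l := by linarith
      rw [this, hkl]; ring
    have h10 : (l + z) ^ 2 ≤ (n : ℤ) := by
      have : (k + l) ^ 2 = 4 * (l + z) ^ 2 := by rw [hkl]; ring
      nlinarith
    refine ⟨hnn, h6.le, h10, ?_⟩
    have h11 : 0 < k * l := mul_pos hk h8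
    have h12 : (l + z) ^ 2 = z ^ 2 + k * l := by rw [hkl]; ring
    show z ^ 2 ≤ (n : ℤ)
    linarith
  · intro P hP Q hQ h
    obtain ⟨hred, l, hl, hev⟩ := (mem_badF.1 hP : Bad n P)
    obtain ⟨hred', l', hl', hev'⟩ := (mem_badF.1 hQ : Bad n Q)
    obtain ⟨x, k⟩ := P
    obtain ⟨x', k'⟩ := Q
    simp only at hred hl hev hred' hl' hev'
    have hk : 0 < k := hred.1
    have hk' : 0 < k' := hred'.1
    have e1 : ((n : ℤ) - x ^ 2) / k = l := by
      rw [← hl]; exact Int.mul_ediv_cancel_left l hk.ne'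
    have e1' : ((n : ℤ) - x' ^ 2) / k' = l' := by
      rw [← hl']; exact Int.mul_ediv_cancel_left l' hk'.ne'
    simp only [Prod.mk.injEq] at h
    obtain ⟨h1, h2, h3⟩ := h
    rw [e1, e1'] at h2 h3
    obtain ⟨z, hz⟩ := hev
    obtain ⟨z', hz'⟩ := hev'
    have : k = k' := by omega
    rw [h1, this]

/-- one step of the continued fraction expansion -/
noncomputable def stp (n : ℕ) (P : ℤ × ℤ) : ℤ × ℤ :=
  (⌊((P.1 : ℝ) + √(n : ℝ)) / P.2⌋ * P.2 - P.1,
    ((n : ℤ) - (⌊((P.1 : ℝ) + √(n : ℝ)) / P.2⌋ * P.2 - P.1) ^ 2) / P.2)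

lemma stp_spec {n : ℕ} (hn : ¬ IsSquare n) {P : ℤ × ℤ} (h : Red n P.1 P.2) :
    Red n (stp n P).1 (stp n P).2 ∧
    (stp n P).1 = ⌊((P.1 : ℝ) + √(n : ℝ)) / P.2⌋ * P.2 - P.1 ∧
    P.2 * (stp n P).2 = n - (stp n P).1 ^ 2 ∧
    (Int.fract (((P.1 : ℝ) + √(n : ℝ)) / P.2))⁻¹ = (((stp n P).1 : ℝ) + √(n : ℝ)) / (stp n P).2 := by
  obtain ⟨x', k', h1, h2, h3, h4⟩ := STEP_ok n hn P.1 P.2 h
  have hk : 0 < P.2 := h.1
  have e : stp n P = (x', k') := by
    unfold stp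
    rw [← h2, ← h3, Int.mul_ediv_cancel_left k' hk.ne']
  rw [e]
  exact ⟨h1, h2, h3, h4⟩

lemma stp_mapsTo {n : ℕ} (hn : ¬ IsSquare n) : Set.MapsTo (stp n) (redF n) (redF n) := by
  intro P hP
  exact mem_redF.2 (stp_spec hn (mem_redF.1 hP)).1

lemma stp_injOn {n : ℕ} (hn : ¬ IsSquare n) : Set.InjOn (stp n) (redF n) := by
  intro P hP Q hQ h
  have hP' := mem_redF.1 hP
  have hQ' := mem_redF.1 hQ
  obtain ⟨a1, a2, a3, -⟩ := stp_spec hn hP'
  obtain ⟨b1, b2, b3, -⟩ := stp_spec hn hQ'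
  rw [← h] at b1 b2 b3
  have hk0 : 0 < (stp n P).2 := a1.1
  have hk : P.2 = Q.2 := by
    have : P.2 * (stp n P).2 = Q.2 * (stp n P).2 := by rw [a3, b3]
    exact mul_right_cancel₀ hk0.ne' this
  obtain ⟨c1, -, c3, c4, -⟩ := red_facts hP'
  obtain ⟨d1, -, d3, d4, -⟩ := red_facts hQ'
  rw [← hk] at b2 d3
  obtain ⟨a, ha⟩ : ∃ a : ℤ, a = ⌊((P.1 : ℝ) + √(n : ℝ)) / P.2⌋ := ⟨_, rfl⟩
  obtain ⟨b, hb⟩ : ∃ b : ℤ, b = ⌊((Q.1 : ℝ) + √(n : ℝ)) / P.2⌋ := ⟨_, rfl⟩
  rw [← ha] at a2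
  rw [← hb] at b2
  have hdiff : P.1 - Q.1 = (a - b) * P.2 := by linarith
  have hlt : |P.1 - Q.1| < P.2 := by
    have : |(P.1 : ℝ) - Q.1| < P.2 := by
      rw [abs_lt]
      constructor <;> linarith
    exact_mod_cast this
  have hab : a - b = 0 := by
    by_contra hne
    have h1 : 1 ≤ |a - b| := Int.one_le_abs hne
    rw [hdiff, abs_mul, abs_of_pos hP'.1] at hlt
    have hp : 0 < P.2 := hP'.1
    nlinarith
  rw [hab, zero_mul] at hdiff
  exact Prod.ext (by linarith) hk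

open Classical in
/-- reduced pairs meeting a bad pair within `m` steps -/
noncomputable def UF (n m : ℕ) : Finset (ℤ × ℤ) :=
  (redF n).filter (fun P => ∃ i ∈ range (m + 1), (stp n)^[i] P ∈ badF n)

lemma mem_UF {n m : ℕ} {P : ℤ × ℤ} :
    P ∈ UF n m ↔ P ∈ redF n ∧ ∃ i ∈ range (m + 1), (stp n)^[i] P ∈ badF n := by
  simp only [UF, Finset.mem_filter]

theorem UF_card {n : ℕ} (hn : ¬ IsSquare n) (m : ℕ) :
    (UF n m).card ≤ (m + 1) * (reps n).ncard := by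
  classical
  have h1 : UF n m ⊆ (range (m + 1)).biUnion
      (fun i => (redF n).filter (fun P => (stp n)^[i] P ∈ badF n)) := by
    intro P hP
    rw [mem_UF] at hP
    obtain ⟨h1, i, hi, h2⟩ := hP
    rw [mem_biUnion]
    exact ⟨i, hi, mem_filter.2 ⟨h1, h2⟩⟩
  refine (card_le_card h1).trans (card_biUnion_le.trans ?_)
  have h2 : ∀ i ∈ range (m + 1),
      ((redF n).filter (fun P => (stp n)^[i] P ∈ badF n)).card ≤ (reps n).ncard := by
    intro i _
    refine (Finset.card_le_card_of_injOn (t := badF n) ((stp n)^[i]) ?_ ?_).trans (badF_card n)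
    · intro P hP
      exact (mem_filter.1 hP).2
    · have := (stp_injOn hn).iterate (stp_mapsTo hn) i
      exact this.mono (fun P hP => (mem_filter.1 hP).1)
  refine (Finset.sum_le_sum h2).trans ?_
  rw [sum_const, card_range, smul_eq_mul]

/-- truncated digit conditions -/
def EvT (m c : ℕ) : Set ℝ :=
  {s | 0 < s ∧ s < 1 ∧ Irrational s ∧ ∀ i < m, i % 2 = c → Even (dig s i)}

lemma parity_of_not_bad {n : ℕ} {x k l : ℤ} (h : Red n x k) (hb : ¬ Bad n (x, k))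
    (hl : k * l = n - x ^ 2) : Odd (k - l) ∧ Even (x - n) := by
  have h1 : Odd (k - l) := by
    rw [← Int.not_even_iff_odd]
    intro he
    exact hb ⟨h, l, hl, he⟩
  refine ⟨h1, ?_⟩
  have h2 : Even (k * l) := by
    rcases Int.even_or_odd k with hk | hk
    · exact hk.mul_right l
    · have : Even l := by
        have := hk.sub_odd h1
        simpa using this
      exact this.mul_left k
  rw [hl, Int.even_sub, Int.even_pow' two_ne_zero] at h2
  rw [Int.even_sub]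
  tauto

theorem dig_trunc {n : ℕ} (hn : ¬ IsSquare n) : ∀ i : ℕ, ∀ P : ℤ × ℤ, Red n P.1 P.2 →
    (∀ j ≤ i + 1, ¬ Bad n ((stp n)^[j] P)) →
      (Odd P.2 → i % 2 = 0 → Even (dig (((P.1 : ℝ) + √(n : ℝ)) / P.2)⁻¹ i)) ∧
      (Even P.2 → i % 2 = 1 → Even (dig (((P.1 : ℝ) + √(n : ℝ)) / P.2)⁻¹ i)) := by
  intro i
  induction i with
  | zero =>
    intro P hred hb
    refine ⟨fun hk _ => ?_, fun _ h => absurd h (by norm_num)⟩
    obtain ⟨hred', hx', hkk, -⟩ := stp_spec hn hred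
    obtain ⟨l, hl⟩ := hred.2.1
    have b0 : ¬ Bad n (P.1, P.2) := by simpa using hb 0 (by omega)
    have b1 : ¬ Bad n ((stp n P).1, (stp n P).2) := by simpa using hb 1 (by omega)
    have p1 := (parity_of_not_bad hred b0 hl.symm).2
    have p2 := (parity_of_not_bad hred' b1 (by rw [mul_comm]; exact hkk)).2
    show Even ⌊((((P.1 : ℝ) + √(n : ℝ)) / P.2)⁻¹)⁻¹⌋
    rw [inv_inv]
    have h5 : Even (⌊((P.1 : ℝ) + √(n : ℝ)) / P.2⌋ * P.2) := by
      have : ⌊((P.1 : ℝ) + √(n : ℝ)) / P.2⌋ * P.2 = P.1 + (stp n P).1 := by rw [hx']; ring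
      rw [this]
      obtain ⟨u, hu⟩ := p1
      obtain ⟨v, hv⟩ := p2
      exact ⟨u + v + n, by linarith⟩
    rw [Int.even_mul] at h5
    rcases h5 with h5 | h5
    · exact h5
    · exact absurd h5 (Int.not_even_iff_odd.2 hk)
  | succ i ih =>
    intro P hred hb
    obtain ⟨hred', hx', hkk, hfr⟩ := stp_spec hn hred
    have b1 : ¬ Bad n ((stp n P).1, (stp n P).2) := by simpa using hb 1 (by omega)
    have p2 := (parity_of_not_bad hred' b1 (by rw [mul_comm]; exact hkk)).1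
    obtain ⟨ih1, ih2⟩ := ih (stp n P) hred' (by
      intro j hj
      rw [← Function.iterate_succ_apply]
      exact hb (j + 1) (by omega))
    have hdig : dig (((P.1 : ℝ) + √(n : ℝ)) / P.2)⁻¹ (i + 1) =
        dig ((((stp n P).1 : ℝ) + √(n : ℝ)) / (stp n P).2)⁻¹ i := by
      unfold dig
      rw [Function.iterate_succ_apply]
      have : gm (((P.1 : ℝ) + √(n : ℝ)) / P.2)⁻¹ =
          ((((stp n P).1 : ℝ) + √(n : ℝ)) / (stp n P).2)⁻¹ := by
        unfold gm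
        rw [inv_inv, ← hfr, inv_inv]
      rw [this]
    rw [hdig]
    constructor
    · intro hk hi
      apply ih2 _ (by omega)
      have := p2.add_odd hk
      simpa using this
    · intro hk hi
      apply ih1 _ (by omega)
      have := p2.add_even hk
      simpa using this

/-- the digits of a reduced pair which meets no bad pair within `m` steps -/
theorem mem_EvT {n : ℕ} (hn : ¬ IsSquare n) (m : ℕ) {P : ℤ × ℤ} (hred : Red n P.1 P.2)
    (hU : P ∉ UF n m) :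
    (((P.1 : ℝ) + √(n : ℝ)) / P.2)⁻¹ ∈ EvT m 0 ∪ EvT m 1 := by
  classical
  have hb : ∀ j ≤ m, ¬ Bad n ((stp n)^[j] P) := by
    intro j hj hbad
    apply hU
    rw [mem_UF]
    exact ⟨mem_redF.2 hred, j, mem_range.2 (by omega), mem_badF.2 hbad⟩
  have hk : 0 < P.2 := hred.1
  have hkR : (0 : ℝ) < P.2 := by exact_mod_cast hk
  have h1 := hred.2.2.1
  have hirr : Irrational (((P.1 : ℝ) + √(n : ℝ)) / P.2)⁻¹ :=
    (((irrational_sqrt_natCast_iff.2 hn).intCast_add P.1).div_intCast hk.ne').inv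
  have hpos : 0 < (((P.1 : ℝ) + √(n : ℝ)) / P.2)⁻¹ := inv_pos.2 (by linarith)
  have hlt : (((P.1 : ℝ) + √(n : ℝ)) / P.2)⁻¹ < 1 := inv_lt_one_of_one_lt₀ h1
  rcases Int.even_or_odd P.2 with he | ho
  · right
    exact ⟨hpos, hlt, hirr, fun i him hi =>
      (dig_trunc hn i P hred (fun j hj => hb j (by omega))).2 he hi⟩
  · left
    exact ⟨hpos, hlt, hirr, fun i him hi =>
      (dig_trunc hn i P hred (fun j hj => hb j (by omega))).1 ho hi⟩

end Pool.Agent.H79.KZ
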