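import Pool.Agent.H79.KZ.Trunc

/-!
The objects are few if there are few representations.
-/

set_option autoImplicit false

namespace Pool.Agent.H79.KZ

open Finset Pool.Agent.H843R2.KZ

theorem obj_basic {n D : ℕ} {P : ℕ × ℕ} (hPm : P ∈ obj n D) :
    1 ≤ P.1 ∧ P.1 ≤ D ∧ n ≤ P.1 ^ 2 ∧ Nat.Coprime P.1 (2 * n) ∧ P.2 < P.1 ∧
      (P.1 : ℤ) ∣ (n : ℤ) - (P.2 : ℤ) ^ 2 := by
  unfold obj at hPm
  rw [mem_filter, mem_product, mem_Icc, mem_range] at hPm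
  obtain ⟨⟨⟨hd1, hd2⟩, -⟩, hn, hcop, hy, hdvd⟩ := hPm
  exact ⟨hd1, hd2, hn, hcop, hy, hdvd⟩

theorem obj_pre (n D : ℕ) (hsq : ¬ IsSquare n) (B : ℝ) (hB : 1 ≤ B)
    (hDB : (D : ℝ) ≤ B * √n) (P : ℕ × ℕ) (hPm : P ∈ obj n D) :
    Pre n B (wr n P) ∧ Pre n B (1 - wl n P) := by
  obtain ⟨hd1, hd2, hn, hcop, hy, hdvd⟩ := obj_basic hPm
  obtain ⟨d, y⟩ := P
  simp only at hd1 hd2 hn hcop hy hdvd
  have hn' : (n : ℝ) ≤ (((d : ℕ) : ℤ) : ℝ) ^ 2 := by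
    have : ((n : ℕ) : ℝ) ≤ ((d ^ 2 : ℕ) : ℝ) := by exact_mod_cast hn
    simpa using this
  have hdB : ((((d : ℕ) : ℤ)) : ℝ) ≤ B * √n := by
    have : (d : ℝ) ≤ D := by exact_mod_cast hd2
    simpa using this.trans hDB
  have hd0 : (0 : ℤ) < (d : ℤ) := by omega
  have hd0' : (0 : ℝ) < (d : ℝ) := by exact_mod_cast hd1
  have hy1 : 1 ≤ y := by
    by_contra hy0
    have hy0' : y = 0 := by omega
    subst hy0'
    have h5 : (d : ℤ) ∣ (n : ℤ) := by simpa using hdvd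
    have h6 : d ∣ n := by exact_mod_cast h5
    have h7 : d ∣ Nat.gcd d (2 * n) := Nat.dvd_gcd dvd_rfl (Dvd.dvd.mul_left h6 2)
    have h8 : Nat.gcd d (2 * n) = 1 := hcop
    rw [h8] at h7
    have h9 : d = 1 := Nat.dvd_one.1 h7
    subst h9
    apply hsq
    have : n = 0 ∨ n = 1 := by omega
    rcases this with h | h
    · exact ⟨0, by omega⟩
    · exact ⟨1, by omega⟩
  constructor
  · have := PRE_ok n hsq B d y hB hd0 (by omega) (by omega) hn' hdB hdvd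
    simpa [wr] using this
  · have h5 : (d : ℤ) ∣ (n : ℤ) - ((d : ℤ) - y) ^ 2 := by
      have : (n : ℤ) - ((d : ℤ) - y) ^ 2 = ((n : ℤ) - (y : ℤ) ^ 2) + d * (2 * y - d) := by ring
      rw [this]
      exact dvd_add hdvd (dvd_mul_right _ _)
    have := PRE_ok n hsq B d ((d : ℤ) - y) hB hd0 (by omega) (by omega) hn' hdB h5
    have e : 1 - wl n (d, y) = ((((d : ℤ) - (y : ℤ) : ℤ) : ℝ) + √n) / (((d : ℕ) : ℤ) : ℝ) := by
      unfold wl
      simp only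
      push_cast
      field_simp
      ring
    rw [e]
    exact this

theorem obj_range {n D : ℕ} {P : ℕ × ℕ} (hPm : P ∈ obj n D) :
    (0 ≤ wr n P ∧ wr n P ≤ 2) ∧ 0 ≤ 1 - wl n P ∧ 1 - wl n P ≤ 2 := by
  obtain ⟨hd1, hd2, hn, hcop, hy, hdvd⟩ := obj_basic hPm
  obtain ⟨d, y⟩ := P
  simp only at hd1 hd2 hn hcop hy hdvd
  have hd0 : (0 : ℝ) < (d : ℝ) := by exact_mod_cast hd1
  have hs : √(n : ℝ) ≤ d := by
    rw [Real.sqrt_le_left hd0.le]
    exact_mod_cast hn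
  have hs0 : 0 ≤ √(n : ℝ) := Real.sqrt_nonneg _
  have hyd : (y : ℝ) ≤ d := by exact_mod_cast hy.le
  have hy0 : (0 : ℝ) ≤ y := Nat.cast_nonneg y
  unfold wr wl
  simp only
  refine ⟨⟨by positivity, ?_⟩, ?_, ?_⟩
  · rw [div_le_iff₀ hd0]; linarith
  · rw [sub_nonneg, div_le_iff₀ hd0]; linarith
  · have : -1 ≤ ((y : ℝ) - √(n : ℝ)) / d := by rw [le_div_iff₀ hd0]; linarith
    linarith

lemma cov_02 {A : Set ℝ} (hA : ∀ a ∈ A, 0 ≤ a ∧ a ≤ 2) (δ : ℝ) (h0 : 0 < δ) (h1 : δ ≤ 1) :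
    Cov A δ (3 / δ) := by
  classical
  refine ⟨(range (⌊2 / δ⌋₊ + 1)).image (fun i : ℕ => (i : ℝ) * δ), ?_, ?_⟩
  · have h2 : ((range (⌊2 / δ⌋₊ + 1)).image (fun i : ℕ => (i : ℝ) * δ)).card ≤ ⌊2 / δ⌋₊ + 1 := by
      refine card_image_le.trans ?_
      rw [card_range]
    have h3 : (((range (⌊2 / δ⌋₊ + 1)).image (fun i : ℕ => (i : ℝ) * δ)).card : ℝ) ≤
        (⌊2 / δ⌋₊ : ℝ) + 1 := by exact_mod_cast h2
    have h4 : (⌊2 / δ⌋₊ : ℝ) ≤ 2 / δ := Nat.floor_le (by positivity)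
    have h5 : 1 ≤ 1 / δ := by rw [le_div_iff₀ h0]; linarith
    have h6 : 3 / δ = 2 / δ + 1 / δ := by ring
    linarith
  · intro a ha
    obtain ⟨a0, a2⟩ := hA a ha
    refine ⟨(⌊a / δ⌋₊ : ℝ) * δ, ?_, ?_, ?_⟩
    · refine mem_image.2 ⟨⌊a / δ⌋₊, ?_, rfl⟩
      rw [mem_range]
      have : ⌊a / δ⌋₊ ≤ ⌊2 / δ⌋₊ := Nat.floor_le_floor (by gcongr)
      omega
    · have := Nat.floor_le (a := a / δ) (by positivity)
      calc (⌊a / δ⌋₊ : ℝ) * δ ≤ a / δ * δ := by gcongr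
        _ = a := by field_simp
    · have := (Nat.lt_floor_add_one (a / δ)).le
      calc a = a / δ * δ := by field_simp
        _ ≤ ((⌊a / δ⌋₊ : ℝ) + 1) * δ := by gcongr
        _ = (⌊a / δ⌋₊ : ℝ) * δ + δ := by ring

open Classical in
/-- pigeonhole -/
theorem pigeon (n D : ℕ) (δ N M : ℝ) (O : Finset (ℕ × ℕ)) (hO : O ⊆ obj n D)
    (h1 : Cov {w | ∃ P ∈ O, w = wr n P} δ N) (h2 : Cov {w | ∃ P ∈ O, w = 1 - wl n P} δ M) :
    (O.card : ℝ) ^ 2 ≤ N * M * ((close n D δ).card : ℝ) := by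
  obtain ⟨F, hF, hFc⟩ := h1
  obtain ⟨G, hG, hGc⟩ := h2
  have hex : ∀ P : ℕ × ℕ, ∃ t : ℝ × ℝ, P ∈ O → t ∈ F ×ˢ G ∧
      t.1 ≤ wr n P ∧ wr n P ≤ t.1 + δ ∧ t.2 ≤ 1 - wl n P ∧ 1 - wl n P ≤ t.2 + δ := by
    intro P
    by_cases hPm : P ∈ O
    · obtain ⟨f, hf, h7, h8⟩ := hFc _ ⟨P, hPm, rfl⟩
      obtain ⟨g, hg, h9, h10⟩ := hGc _ ⟨P, hPm, rfl⟩
      exact ⟨(f, g), fun _ => ⟨mem_product.2 ⟨hf, hg⟩, h7, h8, h9, h10⟩⟩
    · exact ⟨(0, 0), fun h => absurd h hPm⟩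
  choose φ hφ using hex
  set E := (O ×ˢ O).filter (fun z => φ z.1 = φ z.2) with hE
  have hEc : E ⊆ close n D δ := by
    intro z hz
    rw [hE, mem_filter, mem_product] at hz
    obtain ⟨⟨hz1, hz2⟩, hz3⟩ := hz
    unfold close
    rw [mem_filter, mem_product]
    obtain ⟨-, a1, a2, a3, a4⟩ := hφ _ hz1
    obtain ⟨-, b1, b2, b3, b4⟩ := hφ _ hz2
    rw [← hz3] at b1 b2 b3 b4
    exact ⟨⟨hO hz1, hO hz2⟩, abs_le.2 ⟨by linarith, by linarith⟩,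
      abs_le.2 ⟨by linarith, by linarith⟩⟩
  have c1 : O.card = ∑ t ∈ F ×ˢ G, (O.filter (fun P => φ P = t)).card :=
    card_eq_sum_card_fiberwise (fun P hPm => (hφ P hPm).1)
  have c2 : (O.card) ^ 2 ≤
      (F ×ˢ G).card * ∑ t ∈ F ×ˢ G, (O.filter (fun P => φ P = t)).card ^ 2 := by
    rw [c1]
    exact sq_sum_le_card_mul_sum_sq
  have c3 : ∑ t ∈ F ×ˢ G, (O.filter (fun P => φ P = t)).card ^ 2 = E.card := by
    have c4 : E.card = ∑ t ∈ F ×ˢ G, (E.filter (fun z => φ z.1 = t)).card :=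
      card_eq_sum_card_fiberwise (fun z hz => by
        have hz' : z ∈ E := hz
        rw [hE, mem_filter, mem_product] at hz'
        exact (hφ _ hz'.1.1).1)
    rw [c4]
    refine sum_congr rfl fun t _ => ?_
    rw [sq, ← card_product]
    congr 1
    ext z
    simp only [hE, mem_filter, mem_product]
    constructor
    · rintro ⟨⟨h1, h2⟩, h3, h4⟩
      exact ⟨⟨⟨h1, h3⟩, h2.trans h4.symm⟩, h2⟩
    · rintro ⟨⟨⟨h1, h3⟩, h5⟩, h2⟩
      exact ⟨⟨h1, h2⟩, h3, h5 ▸ h2⟩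
  rw [c3, card_product] at c2
  have c5 : ((O.card : ℝ)) ^ 2 ≤ (F.card : ℝ) * G.card * ((close n D δ).card : ℝ) := by
    have c6 : (O.card) ^ 2 ≤ F.card * G.card * (close n D δ).card :=
      c2.trans (Nat.mul_le_mul_left _ (card_le_card hEc))
    exact_mod_cast c6
  refine c5.trans ?_
  refine mul_le_mul_of_nonneg_right ?_ (Nat.cast_nonneg _)
  have hpos : (0 : ℝ) ≤ G.card := Nat.cast_nonneg _
  have hpos' : (0 : ℝ) ≤ F.card := Nat.cast_nonneg _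
  exact mul_le_mul hF hG hpos (hpos'.trans hF)

lemma wr_inj {n : ℕ} (hn : ¬ IsSquare n) {P Q : ℕ × ℕ} (hP : 1 ≤ P.1) (hQ : 1 ≤ Q.1)
    (h : wr n P = wr n Q) : P = Q := by
  have hirr : Irrational (√(n : ℝ)) := irrational_sqrt_natCast_iff.2 hn
  obtain ⟨d, y⟩ := P
  obtain ⟨d', y'⟩ := Q
  simp only at hP hQ
  unfold wr at h
  simp only at h
  have hd : (0 : ℝ) < d := by exact_mod_cast hP
  have hd' : (0 : ℝ) < d' := by exact_mod_cast hQ
  rw [div_eq_div_iff hd.ne' hd'.ne'] at h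
  have h1 : √(n : ℝ) * ((d' : ℝ) - d) = (y' : ℝ) * d - y * d' := by linarith
  have h2 : (d' : ℝ) - d = 0 := by
    by_contra hne
    apply hirr
    refine ⟨((y' : ℚ) * d - y * d') / (d' - d), ?_⟩
    push_cast
    rw [← h1]
    field_simp
  rw [h2, mul_zero] at h1
  have h3 : (d' : ℝ) = d := by linarith
  have h4 : (y' : ℝ) = y := by
    rw [h3] at h1
    have : ((y' : ℝ) - y) * d = 0 := by linarith
    rcases mul_eq_zero.1 this with h | h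
    · linarith
    · exact absurd h hd.ne'
  have h5 : d' = d := by exact_mod_cast h3
  have h6 : y' = y := by exact_mod_cast h4
  rw [h5, h6]

lemma wl_inj {n : ℕ} (hn : ¬ IsSquare n) {P Q : ℕ × ℕ} (hP : 1 ≤ P.1) (hQ : 1 ≤ Q.1)
    (h : wl n P = wl n Q) : P = Q := by
  have hirr : Irrational (√(n : ℝ)) := irrational_sqrt_natCast_iff.2 hn
  obtain ⟨d, y⟩ := P
  obtain ⟨d', y'⟩ := Q
  simp only at hP hQ
  unfold wl at h
  simp only at h
  have hd : (0 : ℝ) < d := by exact_mod_cast hP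
  have hd' : (0 : ℝ) < d' := by exact_mod_cast hQ
  rw [div_eq_div_iff hd.ne' hd'.ne'] at h
  have h1 : √(n : ℝ) * ((d' : ℝ) - d) = -((y' : ℝ) * d - y * d') := by linarith
  have h2 : (d' : ℝ) - d = 0 := by
    by_contra hne
    apply hirr
    refine ⟨-((y' : ℚ) * d - y * d') / (d' - d), ?_⟩
    push_cast
    rw [← h1]
    field_simp
  rw [h2, mul_zero] at h1
  have h3 : (d' : ℝ) = d := by linarith
  have h4 : (y' : ℝ) = y := by
    rw [h3] at h1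
    have : ((y' : ℝ) - y) * d = 0 := by linarith
    rcases mul_eq_zero.1 this with h | h
    · linarith
    · exact absurd h hd.ne'
  have h5 : d' = d := by exact_mod_cast h3
  have h6 : y' = y := by exact_mod_cast h4
  rw [h5, h6]

/-- the index set of the exceptional numbers -/
noncomputable def TS (n m : ℕ) (B : ℝ) (A : ℕ) : Finset (ℤ × ℤ × ℤ × ℤ × ℤ × ℤ × ℤ) :=
  (Icc (-⌊2 * B + 2⌋) ⌊2 * B + 2⌋) ×ˢ (Icc (-⌊2 * B + 2⌋) ⌊2 * B + 2⌋) ×ˢ (Icc 1 ⌊B⌋) ×ˢ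
    (Icc 0 ⌊B⌋) ×ˢ (Icc (1 : ℤ) A) ×ˢ UF n m

/-- the value -/
noncomputable def vS (n : ℕ) (x : ℤ × ℤ × ℤ × ℤ × ℤ × ℤ × ℤ) : ℝ :=
  ((x.1 : ℝ) + x.2.1 * ((x.2.2.2.2.1 : ℝ) +
    (((x.2.2.2.2.2.1 : ℝ) + √(n : ℝ)) / x.2.2.2.2.2.2)⁻¹)⁻¹) /
  (x.2.2.1 + x.2.2.2.1 * ((x.2.2.2.2.1 : ℝ) +
    (((x.2.2.2.2.2.1 : ℝ) + √(n : ℝ)) / x.2.2.2.2.2.2)⁻¹)⁻¹)

open Classical in
noncomputable def WS (n m : ℕ) (B : ℝ) (A : ℕ) : Finset ℝ := (TS n m B A).image (vS n)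

lemma floor_cards (B : ℝ) (hB : 1 ≤ B) :
    (((Icc (-⌊2 * B + 2⌋) ⌊2 * B + 2⌋).card : ℕ) : ℝ) ≤ 9 * B ∧
    (((Icc 1 ⌊B⌋).card : ℕ) : ℝ) ≤ B ∧ (((Icc 0 ⌊B⌋).card : ℕ) : ℝ) ≤ 2 * B := by
  obtain ⟨R, hR⟩ : ∃ R : ℤ, R = ⌊2 * B + 2⌋ := ⟨_, rfl⟩
  obtain ⟨Q, hQ⟩ : ∃ Q : ℤ, Q = ⌊B⌋ := ⟨_, rfl⟩
  rw [← hR, ← hQ]
  have hR0 : 0 ≤ R := by rw [hR]; exact Int.floor_nonneg.mpr (by linarith)
  have hQ1 : 1 ≤ Q := by rw [hQ]; exact Int.le_floor.mpr (by exact_mod_cast hB)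
  have hRle : (R : ℝ) ≤ 2 * B + 2 := by rw [hR]; exact Int.floor_le _
  have hQle : (Q : ℝ) ≤ B := by rw [hQ]; exact Int.floor_le _
  simp only [Int.card_Icc]
  have e1 : (((R + 1 - -R).toNat : ℕ) : ℝ) = 2 * R + 1 := by
    have : (((R + 1 - -R).toNat : ℕ) : ℤ) = 2 * R + 1 := by
      rw [Int.toNat_of_nonneg (by omega)]; ring
    exact_mod_cast this
  have e2 : (((Q + 1 - 1).toNat : ℕ) : ℝ) = Q := by
    have : (((Q + 1 - 1).toNat : ℕ) : ℤ) = Q := by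
      rw [Int.toNat_of_nonneg (by omega)]; ring
    exact_mod_cast this
  have e3 : (((Q + 1 - 0).toNat : ℕ) : ℝ) = Q + 1 := by
    have : (((Q + 1 - 0).toNat : ℕ) : ℤ) = Q + 1 := by
      rw [Int.toNat_of_nonneg (by omega)]; ring
    exact_mod_cast this
  rw [e1, e2, e3]
  exact ⟨by linarith, hQle, by linarith⟩

lemma WS_card (n m : ℕ) (B : ℝ) (hB : 1 ≤ B) (A : ℕ) :
    ((WS n m B A).card : ℝ) ≤ 162 * B ^ 4 * A * ((UF n m).card : ℝ) := by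
  classical
  obtain ⟨h1, h2, h3⟩ := floor_cards B hB
  have h4 : (WS n m B A).card ≤ (TS n m B A).card := card_image_le
  have h5 : ((TS n m B A).card : ℝ) = ((Icc (-⌊2 * B + 2⌋) ⌊2 * B + 2⌋).card : ℝ) *
      (((Icc (-⌊2 * B + 2⌋) ⌊2 * B + 2⌋).card : ℝ) * (((Icc 1 ⌊B⌋).card : ℝ) *
      (((Icc 0 ⌊B⌋).card : ℝ) * (A * ((UF n m).card : ℝ))))) := by
    unfold TS
    simp only [Finset.card_product]
    push_cast
    have : (((Icc (1 : ℤ) A).card : ℕ) : ℝ) = A := by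
      simp [Int.card_Icc]
    rw [this]
  have h6 : ((WS n m B A).card : ℝ) ≤ ((TS n m B A).card : ℝ) := by exact_mod_cast h4
  refine h6.trans ?_
  rw [h5]
  have hB0 : 0 ≤ B := by linarith
  calc _ ≤ (9 * B) * ((9 * B) * (B * ((2 * B) * (A * ((UF n m).card : ℝ))))) := by
        gcongr
    _ = 162 * B ^ 4 * A * ((UF n m).card : ℝ) := by ring

/-- the numbers very close to a rational number with small denominator -/
def WL (B : ℝ) (A : ℕ) : Set ℝ :=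
  {w | ∃ p q : ℤ, |(p : ℝ)| ≤ 2 * B + 2 ∧ 1 ≤ q ∧ (q : ℝ) ≤ B ∧ |w - p / q| ≤ 1 / (A : ℝ)}

lemma WL_cov (B : ℝ) (hB : 1 ≤ B) (A : ℕ) (hA : 1 ≤ A) :
    Cov (WL B A) (1 / (A : ℝ)) (18 * B ^ 2) := by
  classical
  obtain ⟨I, hI⟩ : ∃ I : Finset (ℤ × ℤ),
    I = (Icc (-⌊2 * B + 2⌋) ⌊2 * B + 2⌋) ×ˢ (Icc 1 ⌊B⌋) := ⟨_, rfl⟩
  refine ⟨I.image (fun x => (x.1 : ℝ) / x.2 - 1 / (A : ℝ)) ∪ I.image (fun x => (x.1 : ℝ) / x.2),
    ?_, ?_⟩
  · obtain ⟨h1, h2, -⟩ := floor_cards B hB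
    have h3 : (I.card : ℝ) ≤ (9 * B) * B := by
      rw [hI, card_product]
      push_cast
      gcongr
    have h4 : (I.image (fun x => (x.1 : ℝ) / x.2 - 1 / (A : ℝ)) ∪
        I.image (fun x => (x.1 : ℝ) / x.2)).card ≤ 2 * I.card := by
      refine (card_union_le _ _).trans ?_
      have h5 : (I.image (fun x => (x.1 : ℝ) / x.2 - 1 / (A : ℝ))).card ≤ I.card := card_image_le
      have h6 : (I.image (fun x => (x.1 : ℝ) / x.2)).card ≤ I.card := card_image_le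
      omega
    have h7 : ((I.image (fun x => (x.1 : ℝ) / x.2 - 1 / (A : ℝ)) ∪
        I.image (fun x => (x.1 : ℝ) / x.2)).card : ℝ) ≤ 2 * I.card := by exact_mod_cast h4
    nlinarith
  · rintro w ⟨p, q, hp, hq, hqB, hw⟩
    have hmem : (p, q) ∈ I := by
      rw [hI, mem_product, mem_Icc, mem_Icc]
      have hp' := abs_le.mp hp
      refine ⟨⟨?_, Int.le_floor.mpr hp'.2⟩, hq, Int.le_floor.mpr hqB⟩
      have : -p ≤ ⌊2 * B + 2⌋ := Int.le_floor.mpr (by push_cast; linarith)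
      show -⌊2 * B + 2⌋ ≤ p
      omega
    have hw' := abs_le.1 hw
    rcases le_or_gt ((p : ℝ) / q) w with h | h
    · refine ⟨(p : ℝ) / q, mem_union_right _ (mem_image.2 ⟨(p, q), hmem, rfl⟩), h, ?_⟩
      linarith
    · refine ⟨(p : ℝ) / q - 1 / (A : ℝ), mem_union_left _ (mem_image.2 ⟨(p, q), hmem, rfl⟩), ?_, ?_⟩
      · linarith
      · linarith

/-- the trichotomy -/
theorem tri {n : ℕ} (hn : ¬ IsSquare n) (m : ℕ) {B : ℝ} {A : ℕ} (hA : 1 ≤ A) {w : ℝ}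
    (h : Pre n B w) : w ∈ WBT m B ∨ w ∈ WS n m B A ∨ w ∈ WL B A := by
  classical
  obtain ⟨p, p', q, q', s, x, k, h1, h2, h3, h4, h5, h6, h7, h8, h9, h10, h11, h12⟩ := h
  have hk : 0 < k := h11.1
  have hirr : Irrational (gm s) := by
    rw [h12]
    exact (((irrational_sqrt_natCast_iff.2 hn).intCast_add x).div_intCast hk.ne').inv
  by_cases hU : (x, k) ∈ UF n m
  · right
    obtain ⟨a1, a2, a3, a4, a5, a6⟩ := uncons s h8 h9 (irrational_of_gm hirr)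
    by_cases haA : dig s 0 ≤ A
    · left
      unfold WS
      rw [mem_image]
      refine ⟨(p, p', q, q', dig s 0, x, k), ?_, ?_⟩
      · unfold TS
        simp only [mem_product, mem_Icc]
        have b1 : ∀ z : ℤ, |(z : ℝ)| ≤ 2 * B + 2 → -⌊2 * B + 2⌋ ≤ z ∧ z ≤ ⌊2 * B + 2⌋ := by
          intro z hz
          have hz' := abs_le.mp hz
          refine ⟨?_, Int.le_floor.mpr hz'.2⟩
          have : -z ≤ ⌊2 * B + 2⌋ := Int.le_floor.mpr (by push_cast; linarith)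
          omega
        have b2 : q ≤ ⌊B⌋ := Int.le_floor.mpr h6
        exact ⟨b1 p h1, b1 p' h2, ⟨h3, b2⟩, ⟨h4, by omega⟩, ⟨a1, haA⟩, hU⟩
      · unfold vS
        simp only
        rw [h12] at a2
        rw [← a2]
        exact h10.symm
    · right
      refine ⟨p, q, h1, h3, h6, ?_⟩
      have hqR : (1 : ℝ) ≤ q := by exact_mod_cast h3
      have hqR' : (0 : ℝ) ≤ q' := by exact_mod_cast h4
      have hd : ((p : ℝ) * q' - p' * q) ^ 2 = 1 := by exact_mod_cast h7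
      have ha : 1 ≤ (q : ℝ) + q' * s := by nlinarith [mul_nonneg hqR' h8.le]
      have hab : 1 ≤ ((q : ℝ) + q' * s) * q := by nlinarith
      have hdiff : ((p : ℝ) + p' * s) / (q + q' * s) - (p : ℝ) / q
          = ((p : ℝ) * q' - p' * q) * (-s) / (((q : ℝ) + q' * s) * q) := by
        field_simp
        ring
      have habs : |(p : ℝ) * q' - p' * q| = 1 := by
        have := sq_abs ((p : ℝ) * q' - p' * q)
        rw [hd] at this
        nlinarith [abs_nonneg ((p : ℝ) * q' - p' * q)]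
      rw [h10, hdiff, abs_div, abs_mul, habs, one_mul, abs_neg, abs_of_pos h8,
        abs_of_pos (by linarith : (0:ℝ) < ((q : ℝ) + q' * s) * q)]
      have hs : s ≤ 1 / (A : ℝ) := by
        have hAR : (0 : ℝ) < A := by exact_mod_cast hA
        rw [a2, inv_eq_one_div]
        apply one_div_le_one_div_of_le hAR
        have : ((A : ℤ) : ℝ) ≤ (dig s 0 : ℝ) := by exact_mod_cast (by omega : (A : ℤ) ≤ dig s 0)
        have h13 : ((A : ℤ) : ℝ) = (A : ℝ) := by push_cast; rfl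
        linarith
      calc s / (((q : ℝ) + q' * s) * q) ≤ s / 1 :=
            div_le_div_of_nonneg_left h8.le one_pos hab
        _ = s := div_one s
        _ ≤ 1 / (A : ℝ) := hs
  · left
    exact ⟨p, p', q, q', s, h1, h2, h3, h4, h5, h6, h7, h8, h9, h10,
      by rw [h12]; exact mem_EvT hn m h11 hU⟩

open Classical in
/-- the main counting inequality -/
theorem count_le : ∃ K : ℝ, 0 < K ∧ ∀ n D : ℕ, ¬ IsSquare n → ∀ B : ℝ, 1 ≤ B →
    (D : ℝ) ≤ B * √n → ∀ δ : ℝ, 0 < δ → δ ≤ 1 → ∀ j : ℕ, (1 / 4 : ℝ) ^ j ≤ δ →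
    ∀ A : ℕ, 1 ≤ A →
    ((obj n D).card : ℝ) ≤ √(K * B ^ 8 * δ ^ (-(9 / 5) : ℝ) * ((close n D δ).card : ℝ)) +
      2 * √(54 * B ^ 2 * A * ((close n D (1 / (A : ℝ))).card : ℝ)) +
      324 * B ^ 4 * A * (2 * j + 1) * ((reps n).ncard : ℝ) := by
  obtain ⟨K, hK, hcov⟩ := COVW_ok (COV0_ok REC_ok NUM_ok) FREE_ok
  refine ⟨9 * K ^ 2, by positivity, ?_⟩
  intro n D hsq B hB hDB δ hδ hδ1 j hj A hA
  have hAR : (1 : ℝ) ≤ A := by exact_mod_cast hA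
  obtain ⟨OG, hOG⟩ : ∃ O : Finset (ℕ × ℕ), O = (obj n D).filter
    (fun P => wr n P ∈ WBT (2 * j) B ∧ 1 - wl n P ∈ WBT (2 * j) B) := ⟨_, rfl⟩
  obtain ⟨O1, hO1⟩ : ∃ O : Finset (ℕ × ℕ), O = (obj n D).filter
    (fun P => wr n P ∈ WS n (2 * j) B A) := ⟨_, rfl⟩
  obtain ⟨O2, hO2⟩ : ∃ O : Finset (ℕ × ℕ), O = (obj n D).filter
    (fun P => 1 - wl n P ∈ WS n (2 * j) B A) := ⟨_, rfl⟩
  obtain ⟨O3, hO3⟩ : ∃ O : Finset (ℕ × ℕ), O = (obj n D).filter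
    (fun P => wr n P ∈ WL B A) := ⟨_, rfl⟩
  obtain ⟨O4, hO4⟩ : ∃ O : Finset (ℕ × ℕ), O = (obj n D).filter
    (fun P => 1 - wl n P ∈ WL B A) := ⟨_, rfl⟩
  have hsub : obj n D ⊆ OG ∪ (O1 ∪ (O2 ∪ (O3 ∪ O4))) := by
    intro P hP
    obtain ⟨h1, h2⟩ := obj_pre n D hsq B hB hDB P hP
    have t1 := tri hsq (2 * j) hA h1
    have t2 := tri hsq (2 * j) hA h2
    rw [hOG, hO1, hO2, hO3, hO4]
    simp only [mem_union, mem_filter]
    tauto
  have hcard : ((obj n D).card : ℝ) ≤ OG.card + (O1.card + (O2.card + (O3.card + O4.card))) := by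
    have h1 := card_le_card hsub
    have h2 := card_union_le OG (O1 ∪ (O2 ∪ (O3 ∪ O4)))
    have h3 := card_union_le O1 (O2 ∪ (O3 ∪ O4))
    have h4 := card_union_le O2 (O3 ∪ O4)
    have h5 := card_union_le O3 O4
    have h6 : (obj n D).card ≤ OG.card + (O1.card + (O2.card + (O3.card + O4.card))) := by omega
    exact_mod_cast h6
  have hU := UF_card hsq (2 * j)
  have hUR : ((UF n (2 * j)).card : ℝ) ≤ (2 * j + 1) * ((reps n).ncard : ℝ) := by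
    exact_mod_cast hU
  have hS : ((WS n (2 * j) B A).card : ℝ) ≤
      162 * B ^ 4 * A * (2 * j + 1) * ((reps n).ncard : ℝ) := by
    refine (WS_card n (2 * j) B hB A).trans ?_
    calc 162 * B ^ 4 * A * ((UF n (2 * j)).card : ℝ)
        ≤ 162 * B ^ 4 * A * ((2 * j + 1) * ((reps n).ncard : ℝ)) := by gcongr
      _ = _ := by ring
  have c1 : (O1.card : ℝ) ≤ 162 * B ^ 4 * A * (2 * j + 1) * ((reps n).ncard : ℝ) := by
    refine le_trans ?_ hS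
    have : O1.card ≤ (WS n (2 * j) B A).card := by
      refine Finset.card_le_card_of_injOn (wr n) ?_ ?_
      · intro P hP
        rw [hO1] at hP
        exact (mem_filter.1 hP).2
      · intro P hP Q hQ h
        rw [hO1] at hP hQ
        exact wr_inj hsq (obj_basic (mem_filter.1 hP).1).1 (obj_basic (mem_filter.1 hQ).1).1 h
    exact_mod_cast this
  have c2 : (O2.card : ℝ) ≤ 162 * B ^ 4 * A * (2 * j + 1) * ((reps n).ncard : ℝ) := by
    refine le_trans ?_ hS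
    have : O2.card ≤ (WS n (2 * j) B A).card := by
      refine Finset.card_le_card_of_injOn (fun P => 1 - wl n P) ?_ ?_
      · intro P hP
        rw [hO2] at hP
        exact (mem_filter.1 hP).2
      · intro P hP Q hQ h
        rw [hO2] at hP hQ
        have h' : wl n P = wl n Q := by
          have : 1 - wl n P = 1 - wl n Q := h
          linarith
        exact wl_inj hsq (obj_basic (mem_filter.1 hP).1).1 (obj_basic (mem_filter.1 hQ).1).1 h'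
    exact_mod_cast this
  have hcovW := WBT_cov hj (hcov B hB δ hδ hδ1)
  have covmono : ∀ {X Y : Set ℝ} {δ N : ℝ}, Cov X δ N → Y ⊆ X → Cov Y δ N := by
    intro X Y δ N h hXY
    obtain ⟨F, hF, hc⟩ := h
    exact ⟨F, hF, fun a ha => hc a (hXY ha)⟩
  have cG : (OG.card : ℝ) ≤
      √(9 * K ^ 2 * B ^ 8 * δ ^ (-(9 / 5) : ℝ) * ((close n D δ).card : ℝ)) := by
    apply Real.le_sqrt_of_sq_le
    have hp := pigeon n D δ _ _ OG (by rw [hOG]; exact filter_subset _ _)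
      (covmono hcovW (by
        rintro w ⟨P, hP, rfl⟩
        rw [hOG] at hP
        exact (mem_filter.1 hP).2.1))
      (covmono hcovW (by
        rintro w ⟨P, hP, rfl⟩
        rw [hOG] at hP
        exact (mem_filter.1 hP).2.2))
    refine hp.trans (le_of_eq ?_)
    have : δ ^ (-(9 / 5) : ℝ) = δ ^ (-(9 / 10) : ℝ) * δ ^ (-(9 / 10) : ℝ) := by
      rw [← Real.rpow_add hδ]
      norm_num
    rw [this]
    ring
  have hA1 : (0 : ℝ) < 1 / (A : ℝ) := by positivity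
  have hA2 : 1 / (A : ℝ) ≤ 1 := by rw [div_le_one (by linarith)]; exact hAR
  have e3A : 3 / (1 / (A : ℝ)) = 3 * A := by field_simp
  have c3 : (O3.card : ℝ) ≤ √(54 * B ^ 2 * A * ((close n D (1 / (A : ℝ))).card : ℝ)) := by
    apply Real.le_sqrt_of_sq_le
    have hp := pigeon n D (1 / (A : ℝ)) _ _ O3 (by rw [hO3]; exact filter_subset _ _)
      (covmono (WL_cov B hB A hA) (by
        rintro w ⟨P, hP, rfl⟩
        rw [hO3] at hP
        exact (mem_filter.1 hP).2))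
      (cov_02 (A := {w | ∃ P ∈ O3, w = 1 - wl n P}) (by
        rintro w ⟨P, hP, rfl⟩
        rw [hO3] at hP
        exact (obj_range (mem_filter.1 hP).1).2) _ hA1 hA2)
    refine hp.trans (le_of_eq ?_)
    rw [e3A]; ring
  have c4 : (O4.card : ℝ) ≤ √(54 * B ^ 2 * A * ((close n D (1 / (A : ℝ))).card : ℝ)) := by
    apply Real.le_sqrt_of_sq_le
    have hp := pigeon n D (1 / (A : ℝ)) _ _ O4 (by rw [hO4]; exact filter_subset _ _)
      (cov_02 (A := {w | ∃ P ∈ O4, w = wr n P}) (by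
        rintro w ⟨P, hP, rfl⟩
        rw [hO4] at hP
        exact (obj_range (mem_filter.1 hP).1).1) _ hA1 hA2)
      (covmono (WL_cov B hB A hA) (by
        rintro w ⟨P, hP, rfl⟩
        rw [hO4] at hP
        exact (mem_filter.1 hP).2))
    refine hp.trans (le_of_eq ?_)
    rw [e3A]; ring
  have e324 : 324 * B ^ 4 * A * (2 * j + 1) * ((reps n).ncard : ℝ) =
      162 * B ^ 4 * A * (2 * j + 1) * ((reps n).ncard : ℝ) +
      162 * B ^ 4 * A * (2 * j + 1) * ((reps n).ncard : ℝ) := by ring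
  rw [e324]
  linarith

end Pool.Agent.H79.KZ
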