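import Pool.Agent.H79.KZ.Lower

/-!
Squares, the upper bound, and the final statement.
-/

set_option autoImplicit false

namespace Pool.Agent.H79.KZ

open Finset Pool.Agent.H843R2.KZ

/-- squares have many representations -/
theorem lower_square (n : ℕ) (hn : IsSquare n) : √(n : ℝ) ≤ ((reps n).ncard : ℝ) := by
  classical
  obtain ⟨a, ha⟩ := hn
  have hs : √(n : ℝ) = a := by
    rw [ha]; push_cast
    exact Real.sqrt_mul_self (Nat.cast_nonneg a)
  rw [hs]
  have : a ≤ (reps n).ncard := by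
    rw [Set.ncard_eq_toFinset_card _ (reps_finite n)]
    calc a = (range a).card := (card_range a).symm
      _ ≤ _ := by
        refine Finset.card_le_card_of_injOn (fun t : ℕ => ((a : ℤ), ((t : ℤ), (t : ℤ)))) ?_ ?_
        · intro t ht
          have ht' : t < a := by simpa using ht
          simp only [Set.Finite.coe_toFinset]
          show ((a : ℤ), ((t : ℤ), (t : ℤ))) ∈ reps n
          have h1 : (n : ℤ) = (a : ℤ) * a := by rw [ha]; push_cast; ring
          have h2 : (t : ℤ) ≤ a := by exact_mod_cast ht'.le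
          have h3 : (0 : ℤ) ≤ t := Int.natCast_nonneg t
          refine ⟨?_, ?_, ?_, ?_⟩
          · simp only; rw [h1]; ring
          · simp only; rw [h1]; nlinarith
          · simp only; rw [h1]; nlinarith
          · simp only; rw [h1]; nlinarith
        · intro t _ t' _ h
          simp only [Prod.mk.injEq, Nat.cast_inj] at h
          exact h.2.1
  exact_mod_cast this

lemma mem_box {n : ℕ} {a : ℤ} (h : a ^ 2 ≤ n) :
    a ∈ Icc (-(Nat.sqrt n : ℤ)) (Nat.sqrt n : ℤ) := by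
  have h1 : a.natAbs ^ 2 ≤ n := by
    have : ((a.natAbs ^ 2 : ℕ) : ℤ) ≤ n := by
      push_cast
      rw [sq_abs]
      exact h
    exact_mod_cast this
  have h2 : a.natAbs ≤ Nat.sqrt n := by
    rw [Nat.le_sqrt]
    nlinarith
  rw [mem_Icc]
  omega

/-- the upper bound -/
theorem upper (ε : ℝ) (hε : 0 < ε) : ∃ C : ℝ, 0 < C ∧ ∀ n : ℕ, 1 ≤ n →
    ((reps n).ncard : ℝ) ≤ C * ((n : ℝ) ^ ε * √(n : ℝ)) := by
  classical
  obtain ⟨C, hC, hdiv⟩ := DIV_ok ε hε
  refine ⟨6 * C + 12, by positivity, ?_⟩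
  intro n hn
  have hnr : (1 : ℝ) ≤ n := by exact_mod_cast hn
  obtain ⟨s, hs⟩ : ∃ s : ℕ, s = Nat.sqrt n := ⟨_, rfl⟩
  have hsR : (s : ℝ) ≤ √(n : ℝ) := by rw [hs]; exact Real.nat_sqrt_le_real_sqrt
  have hs1 : (1 : ℝ) ≤ √(n : ℝ) := by
    rw [Real.one_le_sqrt]; exact hnr
  obtain ⟨S, hS⟩ : ∃ S : Finset (ℤ × ℤ × ℤ), S = (reps_finite n).toFinset := ⟨_, rfl⟩
  have hmem : ∀ v, v ∈ S ↔ v ∈ reps n := by
    intro v; rw [hS, Set.Finite.mem_toFinset]
  have hcardS : (reps n).ncard = S.card := by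
    rw [hS, Set.ncard_eq_toFinset_card _ (reps_finite n)]
  have hIcc : ((Icc (-(s : ℤ)) (s : ℤ)).card : ℝ) = 2 * s + 1 := by
    rw [Int.card_Icc]
    have : (((s : ℤ) + 1 - -(s : ℤ)).toNat : ℤ) = 2 * s + 1 := by
      rw [Int.toNat_of_nonneg (by omega)]; ring
    exact_mod_cast this
  have h3s : (2 * (s : ℝ) + 1) ≤ 3 * √(n : ℝ) := by linarith
  -- the part with x^2 ≠ n
  have hA : ((S.filter (fun v => v.1 ^ 2 ≠ (n : ℤ))).card : ℝ) ≤
      (2 * s + 1) * (2 * (C * (n : ℝ) ^ ε)) := by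
    have h1 : (S.filter (fun v => v.1 ^ 2 ≠ (n : ℤ))).card ≤
        ((Icc (-(s : ℤ)) (s : ℤ)).sigma (fun x => if x ^ 2 = (n : ℤ) then ∅ else
          ((n : ℤ) - x ^ 2).natAbs.divisors ×ˢ (Finset.univ : Finset Bool))).card := by
      refine Finset.card_le_card_of_injOn
        (fun v => ⟨v.1, ((v.2.1 - v.2.2).natAbs, decide (0 ≤ v.2.1 - v.2.2))⟩) ?_ ?_
      · intro v hv
        have hv' := mem_filter.1 hv
        obtain ⟨x, y, z⟩ := v
        obtain ⟨h1, h2, h3, h4⟩ := (hmem _).1 hv'.1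
        simp only at h1 h2 h3 h4
        have hne : x ^ 2 ≠ (n : ℤ) := hv'.2
        rw [mem_coe, mem_sigma]
        refine ⟨by rw [hs]; exact mem_box h2, ?_⟩
        simp only
        rw [if_neg hne, mem_product]
        refine ⟨?_, mem_univ _⟩
        rw [Nat.mem_divisors]
        have hprod : (n : ℤ) - x ^ 2 = (y - z) * (y + z) := by rw [h1]; ring
        refine ⟨?_, ?_⟩
        · rw [Int.natAbs_dvd_natAbs]
          exact ⟨y + z, hprod⟩
        · rw [Int.natAbs_ne_zero, sub_ne_zero]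
          exact hne.symm
      · intro v hv w hw h
        have hv' := mem_filter.1 hv
        have hw' := mem_filter.1 hw
        obtain ⟨x, y, z⟩ := v
        obtain ⟨x', y', z'⟩ := w
        obtain ⟨h1, h2, h3, h4⟩ := (hmem _).1 hv'.1
        obtain ⟨g1, g2, g3, g4⟩ := (hmem _).1 hw'.1
        simp only at h1 g1
        have hne : x ^ 2 ≠ (n : ℤ) := hv'.2
        simp only [Sigma.mk.injEq, heq_eq_eq, Prod.mk.injEq, decide_eq_decide] at h
        obtain ⟨hx, hd, hsg⟩ := h
        have hd' : y - z = y' - z' := by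
          by_cases h0 : 0 ≤ y - z
          · have h0' := hsg.1 h0
            omega
          · have h0' : ¬ 0 ≤ y' - z' := fun hh => h0 (hsg.2 hh)
            omega
        have hprod : (y - z) * (y + z) = (y' - z') * (y' + z') := by
          have e1 : (n : ℤ) - x ^ 2 = (y - z) * (y + z) := by rw [h1]; ring
          have e2 : (n : ℤ) - x' ^ 2 = (y' - z') * (y' + z') := by rw [g1]; ring
          rw [← e1, ← e2, hx]
        rw [← hd'] at hprod
        have hdne : y - z ≠ 0 := by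
          intro h0
          apply hne
          have e1 : (n : ℤ) - x ^ 2 = (y - z) * (y + z) := by rw [h1]; ring
          rw [h0, zero_mul] at e1
          linarith
        have hsum := mul_left_cancel₀ hdne hprod
        have e1 : y = y' := by omega
        have e2 : z = z' := by omega
        rw [hx, e1, e2]
    have h2 : (((Icc (-(s : ℤ)) (s : ℤ)).sigma (fun x => if x ^ 2 = (n : ℤ) then ∅ else
          ((n : ℤ) - x ^ 2).natAbs.divisors ×ˢ (Finset.univ : Finset Bool))).card : ℝ) ≤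
        ∑ _x ∈ Icc (-(s : ℤ)) (s : ℤ), 2 * (C * (n : ℝ) ^ ε) := by
      rw [card_sigma, Nat.cast_sum]
      refine Finset.sum_le_sum (fun x hx => ?_)
      split_ifs with h
      · simp only [card_empty, Nat.cast_zero]; positivity
      · rw [card_product, card_univ, Fintype.card_bool]
        push_cast
        have hx2 : x ^ 2 ≤ (n : ℤ) := by
          rw [mem_Icc] at hx
          have h5 : s * s ≤ n := by rw [hs]; exact Nat.sqrt_le n
          have h6 : (s : ℤ) * s ≤ n := by exact_mod_cast h5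
          nlinarith [hx.1, hx.2]
        have hle : ((n : ℤ) - x ^ 2).natAbs ≤ n := by
          have := sq_nonneg x
          omega
        have hpos : 1 ≤ ((n : ℤ) - x ^ 2).natAbs := by
          rw [Nat.one_le_iff_ne_zero, Int.natAbs_ne_zero, sub_ne_zero]
          exact fun hh => h hh.symm
        have h7 := hdiv _ hpos
        have h8 : ((((n : ℤ) - x ^ 2).natAbs : ℕ) : ℝ) ^ ε ≤ (n : ℝ) ^ ε := by
          apply Real.rpow_le_rpow (Nat.cast_nonneg _) _ hε.le
          exact_mod_cast hle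
        have h9 : (((((n : ℤ) - x ^ 2).natAbs.divisors).card : ℕ) : ℝ) ≤ C * (n : ℝ) ^ ε :=
          h7.trans (mul_le_mul_of_nonneg_left h8 hC.le)
        linarith
    have h3 : ((S.filter (fun v => v.1 ^ 2 ≠ (n : ℤ))).card : ℝ) ≤ _ := Nat.cast_le.2 h1
    refine (h3.trans h2).trans (le_of_eq ?_)
    rw [sum_const, nsmul_eq_mul, hIcc]
  -- the part with x^2 = n
  have hB : ((S.filter (fun v => ¬ v.1 ^ 2 ≠ (n : ℤ))).card : ℝ) ≤ 4 * (2 * s + 1) := by
    have h1 : (S.filter (fun v => ¬ v.1 ^ 2 ≠ (n : ℤ))).card ≤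
        (((Finset.univ : Finset Bool) ×ˢ (Finset.univ : Finset Bool)) ×ˢ
          Icc (-(s : ℤ)) (s : ℤ)).card := by
      refine Finset.card_le_card_of_injOn
        (fun v => ((decide (0 ≤ v.1), decide (0 ≤ v.2.2)), v.2.1)) ?_ ?_
      · intro v hv
        have hv' := mem_filter.1 hv
        obtain ⟨h1, h2, h3, h4⟩ := (hmem _).1 hv'.1
        rw [mem_coe, mem_product]
        exact ⟨mem_product.2 ⟨mem_univ _, mem_univ _⟩, by rw [hs]; exact mem_box h3⟩
      · intro v hv w hw h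
        have hv' := mem_filter.1 hv
        have hw' := mem_filter.1 hw
        obtain ⟨x, y, z⟩ := v
        obtain ⟨x', y', z'⟩ := w
        obtain ⟨h1, h2, h3, h4⟩ := (hmem _).1 hv'.1
        obtain ⟨g1, g2, g3, g4⟩ := (hmem _).1 hw'.1
        have k1 : x ^ 2 = (n : ℤ) := not_not.1 hv'.2
        have k2 : x' ^ 2 = (n : ℤ) := not_not.1 hw'.2
        simp only at h1 g1
        simp only [Prod.mk.injEq, decide_eq_decide] at h
        obtain ⟨⟨hx, hz⟩, hy⟩ := h
        have m1 : x ^ 2 = x' ^ 2 := by rw [k1, k2]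
        have m2 : z ^ 2 = z' ^ 2 := by
          have : z ^ 2 = y ^ 2 := by linarith
          have : z' ^ 2 = y' ^ 2 := by linarith
          rw [hy] at *
          linarith
        have key : ∀ a b : ℤ, a ^ 2 = b ^ 2 → (0 ≤ a ↔ 0 ≤ b) → a = b := by
          intro a b hab hs
          rcases sq_eq_sq_iff_eq_or_eq_neg.1 hab with h | h
          · exact h
          · subst h
            by_cases hb : 0 ≤ b
            · have := hs.2 hb
              omega
            · have : ¬ 0 ≤ -b := fun hh => hb (hs.1 hh)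
              omega
        rw [key x x' m1 hx, key z z' m2 hz, hy]
    have h2 : ((((Finset.univ : Finset Bool) ×ˢ (Finset.univ : Finset Bool)) ×ˢ
          Icc (-(s : ℤ)) (s : ℤ)).card : ℝ) = 4 * (2 * s + 1) := by
      rw [card_product, card_product, card_univ, Fintype.card_bool]
      push_cast
      rw [hIcc]
    rw [← h2]
    exact_mod_cast h1
  have hsum : (S.card : ℝ) = ((S.filter (fun v => v.1 ^ 2 ≠ (n : ℤ))).card : ℝ) +
      ((S.filter (fun v => ¬ v.1 ^ 2 ≠ (n : ℤ))).card : ℝ) := by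
    exact_mod_cast (Finset.card_filter_add_card_filter_not (s := S)
      (fun v => v.1 ^ 2 ≠ (n : ℤ))).symm
  rw [hcardS, hsum]
  have hnε : 1 ≤ (n : ℝ) ^ ε := Real.one_le_rpow hnr hε.le
  have hCn : 0 ≤ C * (n : ℝ) ^ ε := by positivity
  calc ((S.filter (fun v => v.1 ^ 2 ≠ (n : ℤ))).card : ℝ) +
      ((S.filter (fun v => ¬ v.1 ^ 2 ≠ (n : ℤ))).card : ℝ)
      ≤ (2 * s + 1) * (2 * (C * (n : ℝ) ^ ε)) + 4 * (2 * s + 1) := add_le_add hA hB
    _ = (2 * s + 1) * (2 * (C * (n : ℝ) ^ ε) + 4) := by ring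
    _ ≤ (3 * √(n : ℝ)) * (2 * (C * (n : ℝ) ^ ε) + 4 * (n : ℝ) ^ ε) := by
        apply mul_le_mul h3s _ (by positivity) (by positivity)
        linarith
    _ = (6 * C + 12) * ((n : ℝ) ^ ε * √(n : ℝ)) := by ring

/-- the number of representations is `n^(1/2+o(1))` -/
theorem count_asymp (ε : ℝ) (hε : 0 < ε) : ∃ N : ℕ, ∀ n : ℕ, N ≤ n →
    (n : ℝ) ^ (1 / 2 - ε) ≤ ((reps n).ncard : ℝ) ∧
      ((reps n).ncard : ℝ) ≤ (n : ℝ) ^ (1 / 2 + ε) := by
  obtain ⟨θ, hθ⟩ : ∃ θ : ℝ, θ = min (1 / 50000) (ε / 2002) := ⟨_, rfl⟩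
  have hθ0 : 0 < θ := by rw [hθ]; positivity
  have hθ1 : θ ≤ 1 / 50000 := by rw [hθ]; exact min_le_left _ _
  have hθ2 : 2002 * θ ≤ ε := by
    have : θ ≤ ε / 2002 := by rw [hθ]; exact min_le_right _ _
    linarith
  obtain ⟨N1, hN1⟩ := lower_nonsquare θ hθ0 hθ1
  obtain ⟨C, hC, hup⟩ := upper (ε / 2) (by positivity)
  obtain ⟨N2, hN2⟩ := LOW_big (ε / 2) C (by positivity)
  refine ⟨max (max N1 N2) 1, fun n hn => ?_⟩
  have hn1 : N1 ≤ n := by omega
  have hn2 : N2 ≤ n := by omega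
  have hn3 : 1 ≤ n := by omega
  have hnr : (1 : ℝ) ≤ n := by exact_mod_cast hn3
  have hn0 : (0 : ℝ) < n := by linarith
  refine ⟨?_, ?_⟩
  · by_cases hsq : IsSquare n
    · refine le_trans ?_ (lower_square n hsq)
      rw [Real.sqrt_eq_rpow]
      exact Real.rpow_le_rpow_of_exponent_le hnr (by linarith)
    · refine le_trans ?_ (hN1 n hn1 hsq)
      exact Real.rpow_le_rpow_of_exponent_le hnr (by linarith)
  · refine (hup n hn3).trans ?_
    have h := hN2 n hn2
    calc C * ((n : ℝ) ^ (ε / 2) * √(n : ℝ))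
        ≤ (n : ℝ) ^ (ε / 2) * ((n : ℝ) ^ (ε / 2) * √(n : ℝ)) := by gcongr
      _ = (n : ℝ) ^ (1 / 2 + ε) := by
          rw [Real.sqrt_eq_rpow, ← Real.rpow_add hn0, ← Real.rpow_add hn0]
          congr 1; ring

end Pool.Agent.H79.KZ
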