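import Pool.Agent.H79.KZ.Final

/-!
Representations whose three squares are all at most `n - n^(1-ε)`.
-/

set_option autoImplicit false

namespace Pool.Agent.H79.KZ

open Finset Pool.Agent.H843R2.KZ

open Classical in
/-- for each `x` with `x^2 ≠ n` there are few representations -/
theorem fiber (ε : ℝ) (hε : 0 < ε) : ∃ C : ℝ, 0 < C ∧ ∀ n : ℕ, 1 ≤ n → ∀ X : Finset ℤ,
    (∀ x ∈ X, x ^ 2 ≤ (n : ℤ) ∧ x ^ 2 ≠ (n : ℤ)) →
    (((reps_finite n).toFinset.filter (fun v => v.1 ∈ X)).card : ℝ) ≤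
      C * (n : ℝ) ^ ε * X.card := by
  obtain ⟨C, hC, hdiv⟩ := DIV_ok ε hε
  refine ⟨2 * C, by positivity, ?_⟩
  intro n hn X hX
  obtain ⟨S, hS⟩ : ∃ S : Finset (ℤ × ℤ × ℤ), S = (reps_finite n).toFinset := ⟨_, rfl⟩
  have hmem : ∀ v, v ∈ S ↔ v ∈ reps n := by
    intro v; rw [hS, Set.Finite.mem_toFinset]
  rw [← hS]
  have h1 : (S.filter (fun v => v.1 ∈ X)).card ≤
      (X.sigma (fun x => ((n : ℤ) - x ^ 2).natAbs.divisors ×ˢ (Finset.univ : Finset Bool))).card := by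
    refine Finset.card_le_card_of_injOn
      (fun v => ⟨v.1, ((v.2.1 - v.2.2).natAbs, decide (0 ≤ v.2.1 - v.2.2))⟩) ?_ ?_
    · intro v hv
      have hv' := mem_filter.1 hv
      obtain ⟨x, y, z⟩ := v
      obtain ⟨h1, h2, h3, h4⟩ := (hmem _).1 hv'.1
      simp only at h1 h2 h3 h4
      have hxX : x ∈ X := hv'.2
      have hne := (hX x hxX).2
      rw [mem_coe, mem_sigma]
      refine ⟨hxX, ?_⟩
      simp only
      rw [mem_product]
      refine ⟨?_, mem_univ _⟩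
      rw [Nat.mem_divisors]
      have hprod : (n : ℤ) - x ^ 2 = (y - z) * (y + z) := by rw [h1]; ring
      refine ⟨?_, ?_⟩
      · rw [Int.natAbs_dvd_natAbs]
        exact ⟨y + z, hprod⟩
      · rw [Int.natAbs_ne_zero, sub_ne_zero]
        exact hne.symm
    · intro v hv w hw h
      have hv' := mem_filter.1 hv
      have hw' := mem_filter.1 hw
      obtain ⟨x, y, z⟩ := v
      obtain ⟨x', y', z'⟩ := w
      obtain ⟨h1, h2, h3, h4⟩ := (hmem _).1 hv'.1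
      obtain ⟨g1, g2, g3, g4⟩ := (hmem _).1 hw'.1
      simp only at h1 g1
      have hxX : x ∈ X := hv'.2
      have hne := (hX x hxX).2
      simp only [Sigma.mk.injEq, heq_eq_eq, Prod.mk.injEq, decide_eq_decide] at h
      obtain ⟨hx, hd, hsg⟩ := h
      have hd' : y - z = y' - z' := by
        by_cases h0 : 0 ≤ y - z
        · have h0' := hsg.1 h0
          omega
        · have h0' : ¬ 0 ≤ y' - z' := fun hh => h0 (hsg.2 hh)
          omega
      have hprod : (y - z) * (y + z) = (y' - z') * (y' + z') := by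
        have e1 : (n : ℤ) - x ^ 2 = (y - z) * (y + z) := by rw [h1]; ring
        have e2 : (n : ℤ) - x' ^ 2 = (y' - z') * (y' + z') := by rw [g1]; ring
        rw [← e1, ← e2, hx]
      rw [← hd'] at hprod
      have hdne : y - z ≠ 0 := by
        intro h0
        apply hne
        have e1 : (n : ℤ) - x ^ 2 = (y - z) * (y + z) := by rw [h1]; ring
        rw [h0, zero_mul] at e1
        linarith
      have hsum := mul_left_cancel₀ hdne hprod
      have e1 : y = y' := by omega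
      have e2 : z = z' := by omega
      rw [hx, e1, e2]
  have h2 : ((X.sigma (fun x =>
      ((n : ℤ) - x ^ 2).natAbs.divisors ×ˢ (Finset.univ : Finset Bool))).card : ℝ) ≤
      ∑ _x ∈ X, 2 * C * (n : ℝ) ^ ε := by
    rw [card_sigma, Nat.cast_sum]
    refine Finset.sum_le_sum (fun x hx => ?_)
    rw [card_product, card_univ, Fintype.card_bool]
    push_cast
    obtain ⟨hx2, h⟩ := hX x hx
    have hle : ((n : ℤ) - x ^ 2).natAbs ≤ n := by
      have := sq_nonneg x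
      omega
    have hpos : 1 ≤ ((n : ℤ) - x ^ 2).natAbs := by
      rw [Nat.one_le_iff_ne_zero, Int.natAbs_ne_zero, sub_ne_zero]
      exact fun hh => h hh.symm
    have h7 := hdiv _ hpos
    have h8 : ((((n : ℤ) - x ^ 2).natAbs : ℕ) : ℝ) ^ ε ≤ (n : ℝ) ^ ε := by
      apply Real.rpow_le_rpow (Nat.cast_nonneg _) _ hε.le
      exact_mod_cast hle
    have h9 : (((((n : ℤ) - x ^ 2).natAbs.divisors).card : ℕ) : ℝ) ≤ C * (n : ℝ) ^ ε :=
      h7.trans (mul_le_mul_of_nonneg_left h8 hC.le)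
    linarith
  have h3 : ((S.filter (fun v => v.1 ∈ X)).card : ℝ) ≤ _ := Nat.cast_le.2 h1
  refine (h3.trans h2).trans (le_of_eq ?_)
  rw [sum_const, nsmul_eq_mul]
  ring

open Classical in
/-- integers whose square is close to `n` -/
noncomputable def nearX (n : ℕ) (T : ℝ) : Finset ℤ :=
  (Icc (-(Nat.sqrt n : ℤ)) (Nat.sqrt n : ℤ)).filter (fun x => (n : ℝ) - T < (x : ℝ) ^ 2)

lemma mem_nearX {n : ℕ} {T : ℝ} {x : ℤ} : x ∈ nearX n T ↔
    x ∈ Icc (-(Nat.sqrt n : ℤ)) (Nat.sqrt n : ℤ) ∧ (n : ℝ) - T < (x : ℝ) ^ 2 := by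
  unfold nearX
  rw [mem_filter]

lemma sq_le_of_mem {n : ℕ} {x : ℤ} (hx : x ∈ Icc (-(Nat.sqrt n : ℤ)) (Nat.sqrt n : ℤ)) :
    x ^ 2 ≤ (n : ℤ) := by
  rw [mem_Icc] at hx
  have h5 : Nat.sqrt n * Nat.sqrt n ≤ n := Nat.sqrt_le n
  have h6 : (Nat.sqrt n : ℤ) * Nat.sqrt n ≤ n := by exact_mod_cast h5
  nlinarith [hx.1, hx.2]

lemma nearX_card (n : ℕ) (hn : 1 ≤ n) (T : ℝ) (hT : 0 ≤ T) :
    ((nearX n T).card : ℝ) ≤ 2 * (T / √(n : ℝ) + 1) := by
  classical
  have hnr : (1 : ℝ) ≤ n := by exact_mod_cast hn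
  have hs0 : 0 < √(n : ℝ) := by positivity
  obtain ⟨s, hs⟩ : ∃ s : ℝ, s = √(n : ℝ) := ⟨_, rfl⟩
  have hs2 : s ^ 2 = n := by rw [hs]; exact Real.sq_sqrt (by linarith)
  rw [← hs] at hs0 ⊢
  obtain ⟨I, hI⟩ : ∃ I : Finset ℤ, I = Ioc ⌊s - T / s⌋ ⌊s⌋ := ⟨_, rfl⟩
  have hsub : nearX n T ⊆ I ∪ I.image (fun x => -x) := by
    intro x hx
    rw [mem_nearX] at hx
    obtain ⟨hx1, hx2⟩ := hx
    have hx3 : (x : ℝ) ^ 2 ≤ s ^ 2 := by
      rw [hs2]; exact_mod_cast sq_le_of_mem hx1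
    have key : ∀ y : ℤ, 0 ≤ y → (y : ℝ) ^ 2 = (x : ℝ) ^ 2 → y ∈ I := by
      intro y hy hxy
      have hyR : (0 : ℝ) ≤ y := by exact_mod_cast hy
      have h1 : (y : ℝ) ≤ s := by
        rw [← hxy] at hx3
        exact le_of_sq_le_sq hx3 hs0.le |> fun h => h
      have h2 : s - T / s < y := by
        have h3 : (n : ℝ) - T < (y : ℝ) ^ 2 := by rw [hxy]; exact hx2
        rw [← hs2] at h3
        have h4 : (s - y) * s < T := by nlinarith
        have h5 : s - y < T / s := by rw [lt_div_iff₀ hs0]; exact h4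
        linarith
      rw [hI, mem_Ioc]
      exact ⟨Int.floor_lt.2 h2, Int.le_floor.2 h1⟩
    rcases le_or_gt 0 x with h0 | h0
    · exact mem_union_left _ (key x h0 rfl)
    · apply mem_union_right
      rw [mem_image]
      exact ⟨-x, key (-x) (by omega) (by push_cast; ring), by ring⟩
  have hIc : (I.card : ℝ) ≤ T / s + 1 := by
    rw [hI, Int.card_Ioc]
    have h1 : ⌊s - T / s⌋ ≤ ⌊s⌋ := by
      apply Int.floor_le_floor
      have : 0 ≤ T / s := by positivity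
      linarith
    have h2 : (((⌊s⌋ - ⌊s - T / s⌋).toNat : ℕ) : ℝ) = (⌊s⌋ : ℝ) - ⌊s - T / s⌋ := by
      have : (((⌊s⌋ - ⌊s - T / s⌋).toNat : ℕ) : ℤ) = ⌊s⌋ - ⌊s - T / s⌋ :=
        Int.toNat_of_nonneg (by omega)
      exact_mod_cast this
    rw [h2]
    have h3 := Int.floor_le s
    have h4 := Int.lt_floor_add_one (s - T / s)
    linarith
  have h5 : (nearX n T).card ≤ I.card + I.card := by
    refine (card_le_card hsub).trans ((card_union_le _ _).trans ?_)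
    have := card_image_le (s := I) (f := fun x : ℤ => -x)
    omega
  have h6 : ((nearX n T).card : ℝ) ≤ I.card + I.card := by exact_mod_cast h5
  linarith

/-- the representations with all squares at most `n - T` -/
def inner (n : ℕ) (T : ℝ) : Set (ℤ × ℤ × ℤ) :=
  {v | (n : ℤ) = v.1 ^ 2 + v.2.1 ^ 2 - v.2.2 ^ 2 ∧ (v.1 : ℝ) ^ 2 ≤ n - T ∧
    (v.2.1 : ℝ) ^ 2 ≤ n - T ∧ (v.2.2 : ℝ) ^ 2 ≤ n - T}

lemma inner_sub (n : ℕ) (T : ℝ) (hT : 0 ≤ T) : inner n T ⊆ reps n := by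
  rintro ⟨x, y, z⟩ ⟨h1, h2, h3, h4⟩
  simp only at h1 h2 h3 h4
  refine ⟨h1, ?_, ?_, ?_⟩
  · show x ^ 2 ≤ (n : ℤ)
    have : (x : ℝ) ^ 2 ≤ n := by linarith
    exact_mod_cast this
  · show y ^ 2 ≤ (n : ℤ)
    have : (y : ℝ) ^ 2 ≤ n := by linarith
    exact_mod_cast this
  · show z ^ 2 ≤ (n : ℤ)
    have : (z : ℝ) ^ 2 ≤ n := by linarith
    exact_mod_cast this

theorem inner_nonsquare (ε : ℝ) (hε : 0 < ε) (hε2 : ε ≤ 1 / 2) : ∃ N : ℕ, ∀ n : ℕ, N ≤ n →
    ¬ IsSquare n → (n : ℝ) ^ (1 / 2 - ε) ≤ ((inner n ((n : ℝ) ^ (1 - ε))).ncard : ℝ) := by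
  classical
  obtain ⟨N1, hN1⟩ := count_asymp (ε / 2) (by positivity)
  obtain ⟨C, hC, hfib⟩ := fiber (ε / 4) (by positivity)
  obtain ⟨N2, hN2⟩ := LOW_big (ε / 4) (16 * C) (by positivity)
  obtain ⟨N3, hN3⟩ := LOW_big (ε / 2) 2 (by positivity)
  refine ⟨max (max N1 N2) (max N3 1), fun n hn hsq => ?_⟩
  have hn1 : N1 ≤ n := by omega
  have hn2 : N2 ≤ n := by omega
  have hn3 : N3 ≤ n := by omega
  have hn4 : 1 ≤ n := by omega
  have hnr : (1 : ℝ) ≤ n := by exact_mod_cast hn4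
  have hn0 : (0 : ℝ) < n := by linarith
  obtain ⟨T, hT⟩ : ∃ T : ℝ, T = (n : ℝ) ^ (1 - ε) := ⟨_, rfl⟩
  have hT0 : 0 ≤ T := by rw [hT]; positivity
  rw [← hT]
  obtain ⟨S, hS⟩ : ∃ S : Finset (ℤ × ℤ × ℤ), S = (reps_finite n).toFinset := ⟨_, rfl⟩
  have hmem : ∀ v, v ∈ S ↔ v ∈ reps n := by
    intro v; rw [hS, Set.Finite.mem_toFinset]
  have hcardS : (reps n).ncard = S.card := by
    rw [hS, Set.ncard_eq_toFinset_card _ (reps_finite n)]
  have hinfin : (inner n T).Finite := (reps_finite n).subset (inner_sub n T hT0)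
  obtain ⟨S', hS'⟩ : ∃ S' : Finset (ℤ × ℤ × ℤ), S' = hinfin.toFinset := ⟨_, rfl⟩
  have hcardS' : (inner n T).ncard = S'.card := by
    rw [hS', Set.ncard_eq_toFinset_card _ hinfin]
  have hnsq : ∀ x : ℤ, x ^ 2 ≠ (n : ℤ) := by
    intro x hx
    apply hsq
    refine ⟨x.natAbs, ?_⟩
    have : ((x.natAbs * x.natAbs : ℕ) : ℤ) = n := by
      push_cast
      rw [← hx, ← sq, sq_abs]
    exact_mod_cast this.symm
  -- decomposition
  have hsub : S ⊆ S' ∪ (S.filter (fun v => v.1 ∈ nearX n T) ∪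
      (S.filter (fun v => v.2.1 ∈ nearX n T))) := by
    intro v hv
    obtain ⟨h1, h2, h3, h4⟩ := (hmem v).1 hv
    rw [mem_union, mem_union, mem_filter, mem_filter]
    by_cases hx : v.1 ∈ nearX n T
    · exact Or.inr (Or.inl ⟨hv, hx⟩)
    by_cases hy : v.2.1 ∈ nearX n T
    · exact Or.inr (Or.inr ⟨hv, hy⟩)
    left
    rw [hS', Set.Finite.mem_toFinset]
    rw [mem_nearX] at hx hy
    have hx' : (v.1 : ℝ) ^ 2 ≤ n - T := by
      by_contra hc
      exact hx ⟨mem_box h2, not_le.1 hc⟩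
    have hy' : (v.2.1 : ℝ) ^ 2 ≤ n - T := by
      by_contra hc
      exact hy ⟨mem_box h3, not_le.1 hc⟩
    refine ⟨h1, hx', hy', ?_⟩
    have h1R : (n : ℝ) = (v.1 : ℝ) ^ 2 + (v.2.1 : ℝ) ^ 2 - (v.2.2 : ℝ) ^ 2 := by exact_mod_cast h1
    linarith
  have hcardle : (S.card : ℝ) ≤ S'.card + ((S.filter (fun v => v.1 ∈ nearX n T)).card +
      (S.filter (fun v => v.2.1 ∈ nearX n T)).card) := by
    have h1 := card_le_card hsub
    have h2 := card_union_le S' (S.filter (fun v => v.1 ∈ nearX n T) ∪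
      (S.filter (fun v => v.2.1 ∈ nearX n T)))
    have h3 := card_union_le (S.filter (fun v => v.1 ∈ nearX n T))
      (S.filter (fun v => v.2.1 ∈ nearX n T))
    have h4 : S.card ≤ S'.card + ((S.filter (fun v => v.1 ∈ nearX n T)).card +
      (S.filter (fun v => v.2.1 ∈ nearX n T)).card) := by omega
    exact_mod_cast h4
  have hf1 : ((S.filter (fun v => v.1 ∈ nearX n T)).card : ℝ) ≤
      C * (n : ℝ) ^ (ε / 4) * (nearX n T).card := by
    rw [hS]
    exact hfib n hn4 (nearX n T) (fun x hx => ⟨sq_le_of_mem (mem_nearX.1 hx).1, hnsq x⟩)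
  have hswap : (S.filter (fun v => v.2.1 ∈ nearX n T)).card ≤
      (S.filter (fun v => v.1 ∈ nearX n T)).card := by
    refine Finset.card_le_card_of_injOn (fun v => (v.2.1, (v.1, v.2.2))) ?_ ?_
    · intro v hv
      have hv' := mem_filter.1 hv
      obtain ⟨h1, h2, h3, h4⟩ := (hmem v).1 hv'.1
      have : (v.2.1, (v.1, v.2.2)) ∈ S.filter (fun v => v.1 ∈ nearX n T) := by
        rw [mem_filter, hmem]
        refine ⟨⟨?_, h3, h2, h4⟩, hv'.2⟩
        show (n : ℤ) = v.2.1 ^ 2 + v.1 ^ 2 - v.2.2 ^ 2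
        rw [h1]; ring
      exact this
    · intro v _ w _ h
      simp only [Prod.mk.injEq] at h
      obtain ⟨h1, h2, h3⟩ := h
      exact Prod.ext h2 (Prod.ext h1 h3)
  have hf2 : ((S.filter (fun v => v.2.1 ∈ nearX n T)).card : ℝ) ≤
      ((S.filter (fun v => v.1 ∈ nearX n T)).card : ℝ) := by exact_mod_cast hswap
  have hnX := nearX_card n hn4 T hT0
  have hTs : T / √(n : ℝ) + 1 ≤ 2 * (n : ℝ) ^ (1 / 2 - ε) := by
    have h1 : T / √(n : ℝ) = (n : ℝ) ^ (1 / 2 - ε) := by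
      rw [hT, Real.sqrt_eq_rpow, ← Real.rpow_sub hn0]
      congr 1; ring
    have h2 : 1 ≤ (n : ℝ) ^ (1 / 2 - ε) := Real.one_le_rpow hnr (by linarith)
    rw [h1]; linarith
  have hlow := (hN1 n hn1).1
  rw [hcardS] at hlow
  rw [hcardS']
  have hf3 : ((S.filter (fun v => v.1 ∈ nearX n T)).card : ℝ) ≤
      C * (n : ℝ) ^ (ε / 4) * (4 * (n : ℝ) ^ (1 / 2 - ε)) := by
    refine hf1.trans ?_
    have : ((nearX n T).card : ℝ) ≤ 4 * (n : ℝ) ^ (1 / 2 - ε) := by linarith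
    gcongr
  have hf4 : C * (n : ℝ) ^ (ε / 4) * (4 * (n : ℝ) ^ (1 / 2 - ε)) ≤
      (n : ℝ) ^ (1 / 2 - ε / 2) / 4 := by
    have h1 := hN2 n hn2
    have h2 : (n : ℝ) ^ (1 / 2 - ε / 2) =
        (n : ℝ) ^ (ε / 4) * ((n : ℝ) ^ (ε / 4) * (n : ℝ) ^ (1 / 2 - ε)) := by
      rw [← Real.rpow_add hn0, ← Real.rpow_add hn0]
      congr 1; ring
    rw [h2]
    have h3 : 0 ≤ (n : ℝ) ^ (ε / 4) * (n : ℝ) ^ (1 / 2 - ε) := by positivity
    calc C * (n : ℝ) ^ (ε / 4) * (4 * (n : ℝ) ^ (1 / 2 - ε))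
        = (16 * C) * ((n : ℝ) ^ (ε / 4) * (n : ℝ) ^ (1 / 2 - ε)) / 4 := by ring
      _ ≤ (n : ℝ) ^ (ε / 4) * ((n : ℝ) ^ (ε / 4) * (n : ℝ) ^ (1 / 2 - ε)) / 4 := by gcongr
  have hfin : (n : ℝ) ^ (1 / 2 - ε / 2) / 2 ≤ (S'.card : ℝ) := by linarith
  refine le_trans ?_ hfin
  have h5 := hN3 n hn3
  have h6 : (n : ℝ) ^ (1 / 2 - ε / 2) = (n : ℝ) ^ (ε / 2) * (n : ℝ) ^ (1 / 2 - ε) := by
    rw [← Real.rpow_add hn0]
    congr 1; ring
  rw [h6]
  have h7 : 0 ≤ (n : ℝ) ^ (1 / 2 - ε) := by positivity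
  nlinarith

/-- squares: the identity `(4t-a)² + (2a-3t)² - (2a-5t)² = a²` -/
theorem inner_square (n a : ℕ) (ha : n = a * a) (h100 : 100 ≤ a) (T : ℝ) (hT : T ≤ 36 / 100 * n)
    (hT0 : 0 ≤ T) : (a : ℝ) / 100 ≤ ((inner n T).ncard : ℝ) := by
  classical
  have hfin : (inner n T).Finite := (reps_finite n).subset (inner_sub n T hT0)
  have hcard : a / 20 ≤ (inner n T).ncard + 2 := by
    rw [Set.ncard_eq_toFinset_card _ hfin]
    have h1 : (Icc (2 * a / 5 + 1) (9 * a / 20)).card ≤ hfin.toFinset.card := by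
      refine Finset.card_le_card_of_injOn (fun t : ℕ => (4 * (t : ℤ) - a,
        (2 * (a : ℤ) - 3 * t, 2 * (a : ℤ) - 5 * t))) ?_ ?_
      · intro t ht
        rw [mem_coe, mem_Icc] at ht
        simp only [Set.Finite.coe_toFinset]
        have t1 : 2 * a ≤ 5 * t := by omega
        have t2 : 20 * t ≤ 9 * a := by omega
        have t1R : 2 * (a : ℝ) ≤ 5 * t := by exact_mod_cast t1
        have t2R : 20 * (t : ℝ) ≤ 9 * a := by exact_mod_cast t2
        have a0 : (0 : ℝ) ≤ a := Nat.cast_nonneg a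
        have hnR : (n : ℝ) = a * a := by rw [ha]; push_cast; ring
        refine ⟨?_, ?_, ?_, ?_⟩
        · show (n : ℤ) = (4 * (t : ℤ) - a) ^ 2 + (2 * (a : ℤ) - 3 * t) ^ 2 -
            (2 * (a : ℤ) - 5 * t) ^ 2
          rw [ha]; push_cast; ring
        · show (((4 * (t : ℤ) - a : ℤ)) : ℝ) ^ 2 ≤ n - T
          push_cast
          rw [hnR] at hT ⊢
          nlinarith
        · show (((2 * (a : ℤ) - 3 * t : ℤ)) : ℝ) ^ 2 ≤ n - T
          push_cast
          rw [hnR] at hT ⊢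
          nlinarith
        · show (((2 * (a : ℤ) - 5 * t : ℤ)) : ℝ) ^ 2 ≤ n - T
          push_cast
          rw [hnR] at hT ⊢
          nlinarith
      · intro t _ t' _ h
        simp only [Prod.mk.injEq] at h
        omega
    rw [Nat.card_Icc] at h1
    omega
  have h2 : (a : ℝ) ≤ 100 * ((inner n T).ncard : ℝ) := by
    have : a ≤ 100 * (inner n T).ncard := by omega
    exact_mod_cast this
  linarith

/-- interior representations, all `n` -/
theorem inner_all (ε : ℝ) (hε : 0 < ε) : ∃ N : ℕ, ∀ n : ℕ, N ≤ n →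
    (n : ℝ) ^ (1 / 2 - ε) ≤ ((inner n ((n : ℝ) ^ (1 - ε))).ncard : ℝ) := by
  obtain ⟨η, hη⟩ : ∃ η : ℝ, η = min ε (1 / 2) := ⟨_, rfl⟩
  have hη0 : 0 < η := by rw [hη]; positivity
  have hη1 : η ≤ 1 / 2 := by rw [hη]; exact min_le_right _ _
  have hη2 : η ≤ ε := by rw [hη]; exact min_le_left _ _
  obtain ⟨N1, hN1⟩ := inner_nonsquare η hη0 hη1
  obtain ⟨N2, hN2⟩ := LOW_big η 100 hη0
  refine ⟨max (max N1 N2) 10000, fun n hn => ?_⟩
  have hn1 : N1 ≤ n := by omega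
  have hn2 : N2 ≤ n := by omega
  have hn3 : 10000 ≤ n := by omega
  have hnr : (1 : ℝ) ≤ n := by exact_mod_cast (by omega : 1 ≤ n)
  have hn0 : (0 : ℝ) < n := by linarith
  have hTle : (n : ℝ) ^ (1 - ε) ≤ (n : ℝ) ^ (1 - η) :=
    Real.rpow_le_rpow_of_exponent_le hnr (by linarith)
  have hmono : inner n ((n : ℝ) ^ (1 - η)) ⊆ inner n ((n : ℝ) ^ (1 - ε)) := by
    rintro ⟨x, y, z⟩ ⟨h1, h2, h3, h4⟩
    exact ⟨h1, by linarith, by linarith, by linarith⟩
  have hfin : (inner n ((n : ℝ) ^ (1 - ε))).Finite :=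
    (reps_finite n).subset (inner_sub n _ (by positivity))
  have hm : ((inner n ((n : ℝ) ^ (1 - η))).ncard : ℝ) ≤
      ((inner n ((n : ℝ) ^ (1 - ε))).ncard : ℝ) := by
    exact_mod_cast Set.ncard_le_ncard hmono hfin
  refine le_trans ?_ hm
  have he : (n : ℝ) ^ (1 / 2 - ε) ≤ (n : ℝ) ^ (1 / 2 - η) :=
    Real.rpow_le_rpow_of_exponent_le hnr (by linarith)
  refine he.trans ?_
  by_cases hsq : IsSquare n
  · obtain ⟨a, ha⟩ := hsq
    have h100 : 100 ≤ a := by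
      by_contra hc
      have : a * a ≤ 99 * 99 := Nat.mul_le_mul (by omega) (by omega)
      omega
    have hs : (n : ℝ) ^ (1 / 2 : ℝ) = a := by
      rw [← Real.sqrt_eq_rpow, ha]; push_cast
      exact Real.sqrt_mul_self (Nat.cast_nonneg a)
    have hbig := hN2 n hn2
    have hη' : (0 : ℝ) < (n : ℝ) ^ η := by positivity
    have hT : (n : ℝ) ^ (1 - η) ≤ 36 / 100 * n := by
      have h1 : (n : ℝ) ^ (1 - η) = n / (n : ℝ) ^ η := by
        rw [Real.rpow_sub hn0, Real.rpow_one]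
      rw [h1, div_le_iff₀ hη']
      nlinarith
    have h2 := inner_square n a ha h100 _ hT (by positivity)
    refine le_trans ?_ h2
    rw [Real.rpow_sub hn0, hs]
    exact div_le_div_of_nonneg_left (Nat.cast_nonneg a) (by norm_num) hbig
  · exact hN1 n hn1 hsq

end Pool.Agent.H79.KZ
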