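import Pool.Graph.R_seed8.H843R2.KZ.Final

/-!
The library's lower bound for the number of objects with general exponents.
-/

set_option autoImplicit false

namespace Pool.Agent.H79.KZ

open Finset Pool.Agent.H843R2.KZ

open HYPaux in
theorem hyp_param (hS : S_SIG) (hPo : S_POS) (hP : S_PV) (hL : S_LSER) (hC : S_COP) (hD : S_DIV)
    (η : ℝ) (hη : 0 < η) (hη1 : η ≤ 1) :
    ∃ N0 : ℕ, ∀ n : ℕ, N0 ≤ n → ∀ χ : DirichletCharacter ℂ (4 * n), χ ≠ 1 →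
    χ ^ 2 = 1 → (n : ℝ) ^ (1 / 2 + 17 * η) ≤
    ∑ d ∈ (Icc 1 ⌊(n : ℝ) ^ (1 / 2 + 20 * η)⌋₊).filter (fun d => Nat.Coprime d (2 * n)),
      ∑ e ∈ d.divisors, (χ (e : ZMod (4 * n))).re := by
  obtain ⟨c1, hc1, hsig⟩ := hS η hη
  obtain ⟨C1, hC1, hdiv⟩ := hD η hη
  set κ : ℝ := c1 / (16 * C1) with hκ
  have hκ0 : 0 < κ := by positivity
  set C2 : ℝ := 160 * (1 + 4 / η) + 2 * C1 + 1 with hC2
  have ht : Filter.Tendsto (fun n : ℕ => (n : ℝ) ^ η) Filter.atTop Filter.atTop :=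
    (tendsto_rpow_atTop hη).comp tendsto_natCast_atTop_atTop
  obtain ⟨N1, hN1⟩ := Filter.eventually_atTop.1 (ht.eventually_ge_atTop ((C2 + 1) / κ))
  refine ⟨max N1 1, ?_⟩
  intro n hn χ h1 h2
  have hn1 : 1 ≤ n := le_trans (le_max_right _ _) hn
  have hnN : N1 ≤ n := le_trans (le_max_left _ _) hn
  have hne : NeZero (4 * n) := ⟨by omega⟩
  have ha := hN1 n hnN
  set x : ℝ := (n : ℝ) with hx
  have hx1 : 1 ≤ x := by rw [hx]; exact_mod_cast hn1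
  have hx0 : 0 < x := by linarith
  set a : ℝ := x ^ η with haa
  have ha1 : 1 ≤ a := Real.one_le_rpow hx1 hη.le
  have ha0 : 0 < a := by linarith
  set D : ℕ := ⌊x ^ (1 / 2 + 20 * η)⌋₊ with hDd
  set E : ℕ := ⌊x ^ (1 / 2 + 10 * η)⌋₊ with hEd
  have y1 : 1 ≤ x ^ (1 / 2 + 10 * η) := Real.one_le_rpow hx1 (by linarith)
  have y2 : 1 ≤ x ^ (1 / 2 + 20 * η) := Real.one_le_rpow hx1 (by linarith)
  have hE1 : 1 ≤ E := Nat.le_floor (by exact_mod_cast y1)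
  have hED : E ≤ D := Nat.floor_le_floor (Real.rpow_le_rpow_of_exponent_le hx1 (by linarith))
  have hlow := lower hP hL hC hPo n D E hn1 hE1 hED χ h1 h2
  refine le_trans ?_ hlow
  have hDle : (D : ℝ) ≤ x ^ (1 / 2 + 20 * η) := Nat.floor_le (by positivity)
  have hDge : x ^ (1 / 2 + 20 * η) / 2 ≤ (D : ℝ) := floor_half _ y2
  have hEle : (E : ℝ) ≤ x ^ (1 / 2 + 10 * η) := Nat.floor_le (by positivity)
  have hEge : x ^ (1 / 2 + 10 * η) / 2 ≤ (E : ℝ) := floor_half _ y1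
  have hE0 : (0 : ℝ) < E := by exact_mod_cast (by omega : 0 < E)
  -- powers
  have two1 : (2 : ℝ) ^ η ≤ 2 := by
    calc (2 : ℝ) ^ η ≤ (2 : ℝ) ^ (1 : ℝ) :=
          Real.rpow_le_rpow_of_exponent_le (by norm_num) hη1
      _ = 2 := Real.rpow_one 2
  have four1 : (4 : ℝ) ^ η ≤ 4 := by
    calc (4 : ℝ) ^ η ≤ (4 : ℝ) ^ (1 : ℝ) :=
          Real.rpow_le_rpow_of_exponent_le (by norm_num) hη1
      _ = 4 := Real.rpow_one 4
  have p2 : (((2 * n : ℕ) : ℝ)) ^ η ≤ 2 * a := by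
    push_cast
    rw [Real.mul_rpow (by norm_num) hx0.le]
    exact mul_le_mul_of_nonneg_right two1 ha0.le
  have p4 : (((4 * n : ℕ) : ℝ)) ^ η ≤ 4 * a := by
    push_cast
    rw [Real.mul_rpow (by norm_num) hx0.le]
    exact mul_le_mul_of_nonneg_right four1 ha0.le
  have q4pos : (0 : ℝ) < ((4 * n : ℕ) : ℝ) := by positivity
  have hτ : ((2 * n).divisors.card : ℝ) ≤ C1 * (2 * a) :=
    (hdiv (2 * n) (by omega)).trans (mul_le_mul_of_nonneg_left p2 hC1.le)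
  have hτ0 : (0 : ℝ) < ((2 * n).divisors.card : ℝ) := by
    exact_mod_cast Finset.card_pos.2 ⟨1, Nat.one_mem_divisors.2 (by omega)⟩
  -- lower bound for c
  have hcl : 1 / (C1 * (2 * a)) ≤ (Nat.totient (2 * n) : ℝ) / ((2 * n : ℕ) : ℝ) := by
    have h3 := tot_div (2 * n) (by omega)
    have h4 : (0 : ℝ) < ((2 * n : ℕ) : ℝ) := by positivity
    rw [div_le_div_iff₀ (by positivity) h4, one_mul]
    refine h3.trans ?_
    exact mul_le_mul_of_nonneg_left hτ (Nat.cast_nonneg _)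
  -- lower bound for L
  have hLl : c1 / (4 * a) ≤ ‖χ.LFunction 1‖ := by
    refine le_trans ?_ (hsig (4 * n) χ h2 h1)
    rw [Real.rpow_neg q4pos.le, ← div_eq_mul_inv]
    exact div_le_div_of_nonneg_left hc1.le (by positivity) p4
  -- exponents
  have ex1 : x ^ (1 / 2 + 20 * η) = a ^ 3 * x ^ (1 / 2 + 17 * η) := by
    rw [haa, ← Real.rpow_natCast, ← Real.rpow_mul hx0.le, ← Real.rpow_add hx0]
    congr 1; push_cast; ring
  have ex2 : x ^ (1 / 2 + 10 * η) * a ≤ x ^ (1 / 2 + 17 * η) := by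
    rw [haa, ← Real.rpow_add hx0]
    exact Real.rpow_le_rpow_of_exponent_le hx1 (by linarith)
  set Y : ℝ := x ^ (1 / 2 + 17 * η) with hY
  have hY0 : 0 < Y := by positivity
  -- main term
  have main : κ * a * Y ≤ (Nat.totient (2 * n) : ℝ) / ((2 * n : ℕ) : ℝ) * D * ‖χ.LFunction 1‖ := by
    calc κ * a * Y = 1 / (C1 * (2 * a)) * (x ^ (1 / 2 + 20 * η) / 2) * (c1 / (4 * a)) := by
          rw [ex1, hκ]; field_simp; ring
      _ ≤ (Nat.totient (2 * n) : ℝ) / ((2 * n : ℕ) : ℝ) * D * ‖χ.LFunction 1‖ := by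
          apply mul_le_mul _ hLl (by positivity) (by positivity)
          exact mul_le_mul hcl hDge (by positivity) (by positivity)
  -- first error
  have hlog : 1 + Real.log ((4 * n : ℕ) : ℝ) ≤ (1 + 4 / η) * a := by
    have h5 := Real.log_le_rpow_div q4pos.le hη
    have h6 : (((4 * n : ℕ) : ℝ)) ^ η / η ≤ 4 / η * a := by
      rw [div_le_iff₀ hη]
      have : 4 / η * a * η = 4 * a := by field_simp
      linarith
    nlinarith
  have hlog0 : 0 ≤ 1 + Real.log ((4 * n : ℕ) : ℝ) := by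
    have : 0 ≤ Real.log ((4 * n : ℕ) : ℝ) := Real.log_natCast_nonneg _
    linarith
  have hsq : √((4 * n : ℕ) : ℝ) = 2 * x ^ (1 / 2 : ℝ) := by
    push_cast
    rw [Real.sqrt_mul (by norm_num), Real.sqrt_eq_rpow x]
    congr 1
    rw [show (4 : ℝ) = 2 ^ 2 by norm_num, Real.sqrt_sq (by norm_num)]
  have hDE : (D : ℝ) / E ≤ 2 * x ^ (10 * η) := by
    rw [div_le_iff₀ hE0]
    calc (D : ℝ) ≤ x ^ (1 / 2 + 20 * η) := hDle
      _ = 2 * x ^ (10 * η) * (x ^ (1 / 2 + 10 * η) / 2) := by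
          have : x ^ (1 / 2 + 20 * η) = x ^ (10 * η) * x ^ (1 / 2 + 10 * η) := by
            rw [← Real.rpow_add hx0]; congr 1; ring
          rw [this]; ring
      _ ≤ 2 * x ^ (10 * η) * E := mul_le_mul_of_nonneg_left hEge (by positivity)
  have err1 : 40 * (√((4 * n : ℕ) : ℝ) * (1 + Real.log ((4 * n : ℕ) : ℝ))) * ((D : ℝ) / E) ≤
      160 * (1 + 4 / η) * Y := by
    calc 40 * (√((4 * n : ℕ) : ℝ) * (1 + Real.log ((4 * n : ℕ) : ℝ))) * ((D : ℝ) / E)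
        ≤ 40 * ((2 * x ^ (1 / 2 : ℝ)) * ((1 + 4 / η) * a)) * (2 * x ^ (10 * η)) := by
          apply mul_le_mul _ hDE (by positivity) (by positivity)
          rw [hsq]
          apply mul_le_mul_of_nonneg_left _ (by norm_num)
          exact mul_le_mul_of_nonneg_left hlog (by positivity)
      _ = 160 * (1 + 4 / η) * (x ^ (1 / 2 + 10 * η) * a) := by
          have : x ^ (1 / 2 + 10 * η) = x ^ (1 / 2 : ℝ) * x ^ (10 * η) := by
            rw [← Real.rpow_add hx0]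
          rw [this]; ring
      _ ≤ 160 * (1 + 4 / η) * Y := mul_le_mul_of_nonneg_left ex2 (by positivity)
  -- second error
  have err2 : (E : ℝ) * (((2 * n).divisors.card : ℝ) + 1) ≤ (2 * C1 + 1) * Y := by
    calc (E : ℝ) * (((2 * n).divisors.card : ℝ) + 1)
        ≤ x ^ (1 / 2 + 10 * η) * ((2 * C1 + 1) * a) := by
          apply mul_le_mul hEle _ (by positivity) (by positivity)
          nlinarith
      _ = (2 * C1 + 1) * (x ^ (1 / 2 + 10 * η) * a) := by ring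
      _ ≤ (2 * C1 + 1) * Y := mul_le_mul_of_nonneg_left ex2 (by positivity)
  have fin : (C2 + 1) * Y ≤ κ * a * Y := by
    apply mul_le_mul_of_nonneg_right _ hY0.le
    rw [div_le_iff₀ hκ0] at ha
    linarith
  have : (C2 + 1) * Y = 160 * (1 + 4 / η) * Y + (2 * C1 + 1) * Y + Y := by rw [hC2]; ring
  linarith



theorem low_param (hQ : S_QCH) (hR : S_RHO) (hRd : S_RHD) (hD : S_DIV)
    (θ : ℝ) (hθ : 0 < θ) (hθ1 : θ ≤ 1 / 400)
    (hH : ∃ N0 : ℕ, ∀ n : ℕ, N0 ≤ n → ∀ χ : DirichletCharacter ℂ (4 * n), χ ≠ 1 →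
      χ ^ 2 = 1 → (n : ℝ) ^ (1 / 2 + 170 * θ) ≤
      ∑ d ∈ (Icc 1 ⌊(n : ℝ) ^ (1 / 2 + 200 * θ)⌋₊).filter (fun d => Nat.Coprime d (2 * n)),
        ∑ e ∈ d.divisors, (χ (e : ZMod (4 * n))).re) :
    ∃ N0 : ℕ, ∀ n : ℕ, N0 ≤ n → ¬ IsSquare n →
      (n : ℝ) ^ (1 / 2 + 100 * θ) ≤ ((obj n ⌊(n : ℝ) ^ (1 / 2 + 200 * θ)⌋₊).card : ℝ) := by
  obtain ⟨N1, hN1⟩ := hH
  obtain ⟨C, hC0, hC⟩ := hD θ hθ
  obtain ⟨N2, hN2⟩ := LOW_big (9 * θ) (2 * C) (by positivity)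
  obtain ⟨N3, hN3⟩ := LOW_big (99 * θ) C (by positivity)
  obtain ⟨N4, hN4⟩ := LOW_big (30 * θ) 8 (by positivity)
  refine ⟨max (max N1 N2) (max (max N3 N4) 2), fun n hn hsq => ?_⟩
  have hn1 : N1 ≤ n := by omega
  have hn2 : N2 ≤ n := by omega
  have hn3 : N3 ≤ n := by omega
  have hn4 : N4 ≤ n := by omega
  have hn5 : 2 ≤ n := by omega
  have hnr : (1 : ℝ) ≤ n := by exact_mod_cast (by omega : 1 ≤ n)
  have hn0 : (0 : ℝ) < n := by linarith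
  have hadd : ∀ a b : ℝ, (n : ℝ) ^ a * (n : ℝ) ^ b = (n : ℝ) ^ (a + b) :=
    fun a b => (Real.rpow_add hn0 a b).symm
  have hpos : ∀ a : ℝ, 0 < (n : ℝ) ^ a := fun a => Real.rpow_pos_of_pos hn0 a
  obtain ⟨χ, hχ1, hχ2, hχ3⟩ := hQ n hn5 hsq
  have key := hN1 n hn1 χ hχ1 hχ2
  obtain ⟨D, hDdef⟩ : ∃ D : ℕ, D = ⌊(n : ℝ) ^ (1 / 2 + 200 * θ)⌋₊ := ⟨_, rfl⟩
  rw [← hDdef] at key ⊢
  have hDle : (D : ℝ) ≤ (n : ℝ) ^ (1 / 2 + 200 * θ) := by
    rw [hDdef]; exact Nat.floor_le (hpos _).le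
  have hDn : D ≤ n := by
    have : (D : ℝ) ≤ n := by
      refine hDle.trans ?_
      conv_rhs => rw [← Real.rpow_one (n : ℝ)]
      exact Real.rpow_le_rpow_of_exponent_le hnr (by linarith)
    exact_mod_cast this
  -- bound for rho
  obtain ⟨R, hRdef⟩ : ∃ R : ℝ, R = C * (n : ℝ) ^ θ := ⟨_, rfl⟩
  have hR0 : 0 ≤ R := by rw [hRdef]; exact (mul_pos hC0 (hpos _)).le
  have hRb : ∀ m ∈ LOW_F n D, (rho n m : ℝ) ≤ R := by
    intro m hm
    rw [LOW_mem] at hm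
    have h1 : (rho n m : ℝ) ≤ (m.divisors.card : ℝ) := by
      exact_mod_cast hRd n m hm.1.1 hm.2
    have h2 := hC m hm.1.1
    have h3 : (m : ℝ) ^ θ ≤ (n : ℝ) ^ θ := by
      refine Real.rpow_le_rpow (Nat.cast_nonneg _) ?_ hθ.le
      exact_mod_cast hm.1.2.trans hDn
    rw [hRdef]
    exact (h1.trans h2).trans (by gcongr)
  -- the character sum
  have hsum : ∑ d ∈ (Icc 1 D).filter (fun d => Nat.Coprime d (2 * n)),
      ∑ e ∈ d.divisors, (χ (e : ZMod (4 * n))).re ≤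
      ((∑ d ∈ LOW_F n D, ∑ g ∈ (Icc 1 d).filter (fun g => g ^ 2 ∣ d),
        rho n (d / g ^ 2) : ℕ) : ℝ) := by
    rw [Nat.cast_sum]
    refine Finset.sum_le_sum (fun d hd => ?_)
    have hd' : d ∈ LOW_F n D := hd
    rw [LOW_mem] at hd'
    have h1 := hR n d hd'.1.1 hd'.2
    have h2 : ∑ e ∈ d.divisors, (χ (e : ZMod (4 * n))).re =
        ((∑ e ∈ d.divisors, jacobiSym n e : ℤ) : ℝ) := by
      rw [Int.cast_sum]
      refine Finset.sum_congr rfl (fun e he => ?_)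
      have hed := Nat.dvd_of_mem_divisors he
      have hodd : Odd e := by
        have h3 : Nat.Coprime e 2 :=
          (Nat.Coprime.coprime_dvd_left hed hd'.2).coprime_mul_right_right
        exact Nat.coprime_two_right.mp h3
      rw [hχ3 e hodd]
      simp
    rw [h2]
    exact_mod_cast h1
  obtain ⟨G, hGdef⟩ : ∃ G : ℕ, G = ⌈(n : ℝ) ^ (40 * θ)⌉₊ := ⟨_, rfl⟩
  have hG1 : (n : ℝ) ^ (40 * θ) ≤ G := by rw [hGdef]; exact Nat.le_ceil _
  have hone : (1 : ℝ) ≤ (n : ℝ) ^ (40 * θ) := Real.one_le_rpow hnr (by positivity)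
  have hG2 : (G : ℝ) ≤ 2 * (n : ℝ) ^ (40 * θ) := by
    have : (G : ℝ) ≤ (n : ℝ) ^ (40 * θ) + 1 := by
      rw [hGdef]; exact (Nat.ceil_lt_add_one (hpos _).le).le
    linarith
  have hGone : 1 ≤ G := by
    have : (1 : ℝ) ≤ G := hone.trans hG1
    exact_mod_cast this
  have hGpos : (0 : ℝ) < G := by exact_mod_cast hGone
  have hdb := LOW_double n D G hGone R hR0 hRb
  have hsm := LOW_small n D R hR0 hRb
  obtain ⟨NN, hNN⟩ : ∃ NN : ℝ, NN = ((∑ d ∈ LOW_F n D, rho n d : ℕ) : ℝ) := ⟨_, rfl⟩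
  rw [← hNN] at hdb hsm
  have hNN0 : 0 ≤ NN := by rw [hNN]; exact Nat.cast_nonneg _
  have e1 : (n : ℝ) ^ (1 / 2 + 170 * θ) ≤ G * NN + D * R / G := (key.trans hsum).trans hdb
  have e2 : D * R / G ≤ (n : ℝ) ^ (1 / 2 + 170 * θ) / 2 := by
    have h1 : D * R / G ≤ (n : ℝ) ^ (1 / 2 + 200 * θ) * R / (n : ℝ) ^ (40 * θ) := by
      gcongr
    refine h1.trans ?_
    rw [div_le_iff₀ (hpos _), hRdef]
    have h2 := hN2 n hn2
    have h3 : (n : ℝ) ^ (1 / 2 + 200 * θ) * (C * (n : ℝ) ^ θ) =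
        C * (n : ℝ) ^ (1 / 2 + 201 * θ) := by
      rw [mul_left_comm, hadd]; congr 2; ring
    have h4 : (n : ℝ) ^ (1 / 2 + 170 * θ) / 2 * (n : ℝ) ^ (40 * θ) =
        ((n : ℝ) ^ (9 * θ) / 2) * (n : ℝ) ^ (1 / 2 + 201 * θ) := by
      rw [div_mul_eq_mul_div, div_mul_eq_mul_div, hadd, hadd]; congr 2; ring
    rw [h3, h4]
    have h5 : C ≤ (n : ℝ) ^ (9 * θ) / 2 := by linarith
    exact mul_le_mul_of_nonneg_right h5 (hpos _).le
  have e3 : (n : ℝ) ^ (1 / 2 + 170 * θ) / 2 ≤ (2 * (n : ℝ) ^ (40 * θ)) * NN := by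
    have : (G : ℝ) * NN ≤ (2 * (n : ℝ) ^ (40 * θ)) * NN := by gcongr
    linarith
  have e4 : (n : ℝ) ^ (1 / 2 + 130 * θ) / 4 ≤ NN := by
    have h1 : (n : ℝ) ^ (1 / 2 + 170 * θ) =
        (n : ℝ) ^ (40 * θ) * (n : ℝ) ^ (1 / 2 + 130 * θ) := by
      rw [hadd]; congr 1; ring
    rw [h1] at e3
    have h2 : (n : ℝ) ^ (40 * θ) * ((n : ℝ) ^ (1 / 2 + 130 * θ) / 4) ≤
        (n : ℝ) ^ (40 * θ) * NN := by linarith
    exact le_of_mul_le_mul_left h2 (hpos _)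
  have e5 : √(n : ℝ) * R ≤ (n : ℝ) ^ (1 / 2 + 100 * θ) := by
    rw [Real.sqrt_eq_rpow, hRdef, mul_left_comm, hadd]
    have h1 : (n : ℝ) ^ (1 / 2 + 100 * θ) = (n : ℝ) ^ (99 * θ) *
        (n : ℝ) ^ (1 / 2 + θ) := by
      rw [hadd]; congr 1; ring
    rw [h1]
    exact mul_le_mul_of_nonneg_right (hN3 n hn3) (hpos _).le
  have e6 : 8 * (n : ℝ) ^ (1 / 2 + 100 * θ) ≤ (n : ℝ) ^ (1 / 2 + 130 * θ) := by
    have h1 : (n : ℝ) ^ (1 / 2 + 130 * θ) = (n : ℝ) ^ (30 * θ) *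
        (n : ℝ) ^ (1 / 2 + 100 * θ) := by
      rw [hadd]; congr 1; ring
    rw [h1]
    exact mul_le_mul_of_nonneg_right (hN4 n hn4) (hpos _).le
  linarith

end Pool.Agent.H79.KZ
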