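import Pool.Agent.H79.KZ.Count
import Pool.Agent.H79.KZ.LowP

/-!
The lower bound for the number of representations of a nonsquare.
-/

set_option autoImplicit false

namespace Pool.Agent.H79.KZ

open Finset Pool.Agent.H843R2.KZ

/-- many objects -/
theorem obj_many (θ : ℝ) (hθ : 0 < θ) (hθ1 : θ ≤ 1 / 400) :
    ∃ N0 : ℕ, ∀ n : ℕ, N0 ≤ n → ¬ IsSquare n →
      (n : ℝ) ^ (1 / 2 + 100 * θ) ≤ ((obj n ⌊(n : ℝ) ^ (1 / 2 + 200 * θ)⌋₊).card : ℝ) := by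
  have h := hyp_param (SIG_ok DIV_ok) POS_ok PV_ok (LSER_ok PV_ok) COP_ok DIV_ok (10 * θ)
    (by positivity) (by linarith)
  refine low_param QCH_ok RHO_ok RHD_ok DIV_ok θ hθ hθ1 ?_
  have e1 : (1 / 2 + 17 * (10 * θ) : ℝ) = 1 / 2 + 170 * θ := by ring
  have e2 : (1 / 2 + 20 * (10 * θ) : ℝ) = 1 / 2 + 200 * θ := by ring
  rw [e1, e2] at h
  exact h

theorem pair_bound : S_PAIR :=
  PAIR_ok (PM_ok IDEN_ok PSFIN_ok RHD_ok DIV_ok)
    (MP_ok NF_ok (CLS_ok PSFIN_ok (ROOT_ok DIV_ok) DET_ok CON_ok ARC_ok) PSFIN_ok DIV_ok)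
    (SUMS_ok DIV_ok)

/-- few close pairs -/
theorem close_bound (θ : ℝ) (hθ : 0 < θ) : ∃ C1 C2 : ℝ, 0 < C1 ∧ 0 < C2 ∧
    ∀ n D : ℕ, ¬ IsSquare n → 1 ≤ D → D ≤ n → ∀ B : ℝ, 1 ≤ B → (D : ℝ) ≤ B * √n →
    ∀ δ : ℝ, 0 < δ → δ ≤ 1 → ∀ h : ℝ, 1 ≤ h → 5 * B ^ 2 * √n * δ ≤ h → 8 * h ^ 2 ≤ n →
    ((close n D δ).card : ℝ) ≤ C1 * D * (n : ℝ) ^ θ +
      C2 * (n : ℝ) ^ θ * (1 + D / √n) * (4 * h ^ 2) := by
  obtain ⟨C1, hC1, hD1⟩ := DIV_ok θ hθ
  obtain ⟨C2, hC2, hP2⟩ := pair_bound θ hθ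
  refine ⟨C1, C2, hC1, hC2, ?_⟩
  intro n D hsq hD hDn B hB hDB δ hδ hδ1 h hh hle hn
  have hn1 : 1 ≤ n := hD.trans hDn
  obtain ⟨H, hH⟩ : ∃ H : ℕ, H = ⌈h⌉₊ := ⟨_, rfl⟩
  have hHge : h ≤ (H : ℝ) := by rw [hH]; exact Nat.le_ceil _
  have hHle : (H : ℝ) ≤ 2 * h := by
    have : (H : ℝ) < h + 1 := by rw [hH]; exact Nat.ceil_lt_add_one (by linarith)
    linarith
  have hH0 : (0 : ℝ) ≤ H := Nat.cast_nonneg H
  have hHsq : (H : ℝ) ^ 2 ≤ 4 * h ^ 2 := by nlinarith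
  have hH1 : 1 ≤ H := by
    have : (1 : ℝ) ≤ H := hh.trans hHge
    exact_mod_cast this
  have hHn : 2 * H ^ 2 ≤ n := by
    have : (2 * (H : ℝ) ^ 2) ≤ n := by linarith
    exact_mod_cast this
  have hcl : (close n D δ).card ≤ (obj n D).card + (prs n D H).card := by
    apply close_card_le
    intro P hP Q hQ h1 h2
    have h3 := CLOSE_ok n D hn1 B hB hDB δ hδ hδ1 P hP Q hQ h1 h2
    have h4 : 5 * B ^ 2 * √(n : ℝ) * δ ≤ H := hle.trans hHge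
    exact ⟨h3.1.trans h4, h3.2.1.trans h4, h3.2.2.trans h4⟩
  have hobj : ((obj n D).card : ℝ) ≤ C1 * D * (n : ℝ) ^ θ := by
    have h1 := obj_card_le RHD_ok n D (C1 * (n : ℝ) ^ θ) (by positivity) (by
      intro d hd1 hdD
      refine (hD1 d hd1).trans ?_
      gcongr
      exact hdD.trans hDn)
    refine h1.trans (le_of_eq (by ring))
  have hprs := hP2 n D H hsq hH1 hHn hD hDn
  have h5 : 0 ≤ (1 + (D : ℝ) / √(n : ℝ)) := by positivity
  have hprs' : ((prs n D H).card : ℝ) ≤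
      C2 * (n : ℝ) ^ θ * (1 + D / √n) * (4 * h ^ 2) := by
    refine hprs.trans ?_
    gcongr
  have h6 : ((close n D δ).card : ℝ) ≤ ((obj n D).card : ℝ) + ((prs n D H).card : ℝ) := by
    exact_mod_cast hcl
  linarith

/-- the lower bound for nonsquares -/
theorem lower_nonsquare (θ : ℝ) (hθ : 0 < θ) (hθ1 : θ ≤ 1 / 50000) :
    ∃ N0 : ℕ, ∀ n : ℕ, N0 ≤ n → ¬ IsSquare n →
      (n : ℝ) ^ (1 / 2 - 2002 * θ) ≤ ((reps n).ncard : ℝ) := by
  classical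
  obtain ⟨N1, hN1⟩ := obj_many θ hθ (by linarith)
  obtain ⟨K, hK, hcount⟩ := count_le
  obtain ⟨C1, C2, hC1, hC2, hcl⟩ := close_bound θ hθ
  set X0 : ℝ := 200 + 16 * K * (C1 + 200 * C2) + 6912 * (C1 + 200 * C2) + 1296 * (2 / θ + 3)
    with hX0
  obtain ⟨N2, hN2⟩ := LOW_big θ X0 hθ
  refine ⟨max (max N1 N2) 2, fun n hn hsq => ?_⟩
  have hn1 : N1 ≤ n := by omega
  have hn2 : N2 ≤ n := by omega
  have hn3 : 2 ≤ n := by omega
  have hnr : (1 : ℝ) ≤ n := by exact_mod_cast (by omega : 1 ≤ n)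
  have hn0 : (0 : ℝ) < n := by linarith
  obtain ⟨u, hu⟩ : ∃ u : ℝ, u = (n : ℝ) ^ θ := ⟨_, rfl⟩
  obtain ⟨v, hv⟩ : ∃ v : ℝ, v = (n : ℝ) ^ (1 / 20 : ℝ) := ⟨_, rfl⟩
  have hu0 : 0 < u := by rw [hu]; positivity
  have hv0 : 0 < v := by rw [hv]; positivity
  have huX : X0 ≤ u := by rw [hu]; exact hN2 n hn2
  have hCC : 0 < C1 + 200 * C2 := by positivity
  have p1 : 0 < 16 * K * (C1 + 200 * C2) := by positivity
  have p2 : 0 < 6912 * (C1 + 200 * C2) := by positivity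
  have p3 : 0 < 1296 * (2 / θ + 3) := by positivity
  have u200 : 200 ≤ u := by rw [hX0] at huX; linarith
  have uK : 16 * K * (C1 + 200 * C2) ≤ u := by rw [hX0] at huX; linarith
  have uC : 6912 * (C1 + 200 * C2) ≤ u := by rw [hX0] at huX; linarith
  have uθ : 1296 * (2 / θ + 3) ≤ u := by rw [hX0] at huX; linarith
  have u1 : 1 ≤ u := by linarith
  have hupow : ∀ k : ℕ, (n : ℝ) ^ ((k : ℝ) * θ) = u ^ k := by
    intro k
    rw [hu, ← Real.rpow_natCast, ← Real.rpow_mul hn0.le, mul_comm]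
  have hvpow : ∀ k : ℕ, (n : ℝ) ^ ((k : ℝ) / 20) = v ^ k := by
    intro k
    rw [hv, ← Real.rpow_natCast, ← Real.rpow_mul hn0.le]
    congr 1; ring
  have hnv : (n : ℝ) = v ^ 20 := by
    have := hvpow 20
    norm_num at this
    exact this
  have hsv : √(n : ℝ) = v ^ 10 := by
    rw [hnv, show v ^ 20 = (v ^ 10) ^ 2 by ring, Real.sqrt_sq (by positivity)]
  have hvu : u ^ 2500 ≤ v := by
    rw [← hupow 2500, hv]
    apply Real.rpow_le_rpow_of_exponent_le hnr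
    push_cast
    linarith
  have v1 : 1 ≤ v := le_trans (one_le_pow₀ u1) hvu
  obtain ⟨D, hD⟩ : ∃ D : ℕ, D = ⌊(n : ℝ) ^ (1 / 2 + 200 * θ)⌋₊ := ⟨_, rfl⟩
  have hL := hN1 n hn1 hsq
  rw [← hD] at hL
  have e100 : (n : ℝ) ^ (1 / 2 + 100 * θ) = v ^ 10 * u ^ 100 := by
    rw [Real.rpow_add hn0, ← hvpow 10, ← hupow 100]
    norm_num
  have e200 : (n : ℝ) ^ (1 / 2 + 200 * θ) = v ^ 10 * u ^ 200 := by
    rw [Real.rpow_add hn0, ← hvpow 10, ← hupow 200]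
    norm_num
  rw [e100] at hL
  have hDle : (D : ℝ) ≤ v ^ 10 * u ^ 200 := by
    rw [← e200, hD]; exact Nat.floor_le (by positivity)
  have hD1 : 1 ≤ D := by
    rw [hD, Nat.one_le_floor_iff, e200]
    exact one_le_mul_of_one_le_of_one_le (one_le_pow₀ v1) (one_le_pow₀ u1)
  have huv : u ^ 200 ≤ v := le_trans (pow_le_pow_right₀ u1 (by norm_num)) hvu
  have hDn : D ≤ n := by
    have : (D : ℝ) ≤ n := by
      rw [hnv]
      calc (D : ℝ) ≤ v ^ 10 * u ^ 200 := hDle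
        _ ≤ v ^ 10 * v := by gcongr
        _ = v ^ 11 := by ring
        _ ≤ v ^ 20 := pow_le_pow_right₀ v1 (by norm_num)
    exact_mod_cast this
  have hB1 : (1 : ℝ) ≤ u ^ 200 := one_le_pow₀ u1
  have hDB : (D : ℝ) ≤ u ^ 200 * √(n : ℝ) := by
    rw [hsv, mul_comm]; exact hDle
  have hDs : 1 + (D : ℝ) / √(n : ℝ) ≤ 2 * u ^ 200 := by
    have h3 : (D : ℝ) / √(n : ℝ) ≤ u ^ 200 := by
      rw [div_le_iff₀ (by rw [hsv]; positivity)]
      exact hDB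
    linarith
  -- the bound for close pairs
  have hclose : ∀ δ : ℝ, 0 < δ → δ ≤ 1 → ∀ h : ℝ, 1 ≤ h → 5 * (u ^ 200) ^ 2 * √n * δ ≤ h →
      8 * h ^ 2 ≤ n → ((close n D δ).card : ℝ) ≤
        C1 * (v ^ 10 * u ^ 201) + 8 * C2 * (u ^ 201 * h ^ 2) := by
    intro δ h1 h2 h h3 h4 h5
    refine (hcl n D hsq hD1 hDn (u ^ 200) hB1 hDB δ h1 h2 h h3 h4 h5).trans ?_
    rw [← hu]
    have t1 : C1 * D * u ≤ C1 * (v ^ 10 * u ^ 201) := by
      calc C1 * D * u ≤ C1 * (v ^ 10 * u ^ 200) * u := by gcongr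
        _ = C1 * (v ^ 10 * u ^ 201) := by ring
    have t2 : C2 * u * (1 + D / √n) * (4 * h ^ 2) ≤ 8 * C2 * (u ^ 201 * h ^ 2) := by
      calc C2 * u * (1 + D / √n) * (4 * h ^ 2) ≤ C2 * u * (2 * u ^ 200) * (4 * h ^ 2) := by
            gcongr
        _ = 8 * C2 * (u ^ 201 * h ^ 2) := by ring
    linarith
  -- δ
  obtain ⟨δ, hδ⟩ : ∃ δ : ℝ, δ = (v ^ 5)⁻¹ := ⟨_, rfl⟩
  have hδ0 : 0 < δ := by rw [hδ]; positivity
  have hδ1 : δ ≤ 1 := by rw [hδ]; exact inv_le_one_of_one_le₀ (one_le_pow₀ v1)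
  have hδp : δ ^ (-(9 / 5) : ℝ) = v ^ 9 := by
    rw [hδ, Real.inv_rpow (by positivity), Real.rpow_neg (by positivity), inv_inv,
      ← Real.rpow_natCast, ← Real.rpow_mul hv0.le, ← Real.rpow_natCast]
    congr 1; norm_num
  have c1 : ((close n D δ).card : ℝ) ≤ (C1 + 200 * C2) * (u ^ 1001 * v ^ 10) := by
    have h := hclose δ hδ0 hδ1 (5 * u ^ 400 * v ^ 5) (by
      have : 1 ≤ u ^ 400 * v ^ 5 :=
        one_le_mul_of_one_le_of_one_le (one_le_pow₀ u1) (one_le_pow₀ v1)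
      linarith) (by
      rw [hsv, hδ]
      apply le_of_eq
      field_simp) (by
      rw [hnv]
      have h1 : u ^ 800 * 200 ≤ v ^ 10 := by
        calc u ^ 800 * 200 ≤ u ^ 800 * u := by gcongr
          _ = u ^ 801 := by ring
          _ ≤ u ^ 2500 := pow_le_pow_right₀ u1 (by norm_num)
          _ ≤ v := hvu
          _ ≤ v ^ 10 := le_self_pow₀ v1 (by norm_num)
      calc 8 * (5 * u ^ 400 * v ^ 5) ^ 2 = (u ^ 800 * 200) * v ^ 10 := by ring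
        _ ≤ v ^ 10 * v ^ 10 := by gcongr
        _ = v ^ 20 := by ring)
    refine h.trans ?_
    have t1 : C1 * (v ^ 10 * u ^ 201) ≤ C1 * (v ^ 10 * u ^ 1001) := by
      have : u ^ 201 ≤ u ^ 1001 := pow_le_pow_right₀ u1 (by norm_num)
      gcongr
    have t2 : 8 * C2 * (u ^ 201 * (5 * u ^ 400 * v ^ 5) ^ 2) = 200 * C2 * (u ^ 1001 * v ^ 10) := by
      ring
    rw [t2]
    calc C1 * (v ^ 10 * u ^ 201) + 200 * C2 * (u ^ 1001 * v ^ 10)
        ≤ C1 * (v ^ 10 * u ^ 1001) + 200 * C2 * (u ^ 1001 * v ^ 10) := by linarith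
      _ = (C1 + 200 * C2) * (u ^ 1001 * v ^ 10) := by ring
  -- first term
  have T1 : √(K * (u ^ 200) ^ 8 * δ ^ (-(9 / 5) : ℝ) * ((close n D δ).card : ℝ)) ≤
      v ^ 10 * u ^ 100 / 4 := by
    rw [Real.sqrt_le_left (by positivity), hδp]
    calc K * (u ^ 200) ^ 8 * v ^ 9 * ((close n D δ).card : ℝ)
        ≤ K * (u ^ 200) ^ 8 * v ^ 9 * ((C1 + 200 * C2) * (u ^ 1001 * v ^ 10)) := by gcongr
      _ = (16 * K * (C1 + 200 * C2)) * u ^ 2401 * (u ^ 200 * v ^ 19) / 16 := by ring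
      _ ≤ u * u ^ 2401 * (u ^ 200 * v ^ 19) / 16 := by gcongr
      _ = u ^ 2402 * (u ^ 200 * v ^ 19) / 16 := by ring
      _ ≤ v * (u ^ 200 * v ^ 19) / 16 := by
          have : u ^ 2402 ≤ v := le_trans (pow_le_pow_right₀ u1 (by norm_num)) hvu
          gcongr
      _ = (v ^ 10 * u ^ 100 / 4) ^ 2 := by ring
  -- A
  obtain ⟨A, hA⟩ : ∃ A : ℕ, A = ⌈u ^ 1300⌉₊ := ⟨_, rfl⟩
  have u1300 : 1 ≤ u ^ 1300 := one_le_pow₀ u1
  have hAge : u ^ 1300 ≤ (A : ℝ) := by rw [hA]; exact Nat.le_ceil _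
  have hAle : (A : ℝ) ≤ 2 * u ^ 1300 := by
    have : (A : ℝ) < u ^ 1300 + 1 := by rw [hA]; exact Nat.ceil_lt_add_one (by positivity)
    linarith
  have hA1R : (1 : ℝ) ≤ A := u1300.trans hAge
  have hA1 : 1 ≤ A := by exact_mod_cast hA1R
  have hA0 : (0 : ℝ) < A := by linarith
  have hvu10 : u ^ 1800 * u ^ 201 ≤ v ^ 10 := by
    calc u ^ 1800 * u ^ 201 = u ^ 2001 := by ring
      _ ≤ u ^ 2500 := pow_le_pow_right₀ u1 (by norm_num)
      _ ≤ v := hvu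
      _ ≤ v ^ 10 := le_self_pow₀ v1 (by norm_num)
  have c2 : ((close n D (1 / (A : ℝ))).card : ℝ) ≤ (C1 + 200 * C2) * (v ^ 20 / u ^ 1599) := by
    have h := hclose (1 / (A : ℝ)) (by positivity) (by rw [div_le_one hA0]; exact hA1R)
      (5 * (v ^ 10 / u ^ 900)) (by
        have : 1 ≤ v ^ 10 / u ^ 900 := by
          rw [le_div_iff₀ (by positivity), one_mul]
          calc u ^ 900 ≤ u ^ 2500 := pow_le_pow_right₀ u1 (by norm_num)
            _ ≤ v := hvu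
            _ ≤ v ^ 10 := le_self_pow₀ v1 (by norm_num)
        linarith) (by
        rw [hsv]
        have h1 : 1 / (A : ℝ) ≤ 1 / u ^ 1300 := one_div_le_one_div_of_le (by positivity) hAge
        calc 5 * (u ^ 200) ^ 2 * v ^ 10 * (1 / (A : ℝ))
            ≤ 5 * (u ^ 200) ^ 2 * v ^ 10 * (1 / u ^ 1300) := by gcongr
          _ = 5 * (v ^ 10 / u ^ 900) := by field_simp) (by
        rw [hnv]
        have h1 : 200 ≤ u ^ 1800 := le_trans u200 (le_self_pow₀ u1 (by norm_num))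
        calc 8 * (5 * (v ^ 10 / u ^ 900)) ^ 2 = 200 * v ^ 20 / u ^ 1800 := by field_simp; ring
          _ ≤ v ^ 20 := by
            rw [div_le_iff₀ (by positivity), mul_comm]
            gcongr)
    refine h.trans ?_
    have t1 : v ^ 10 * u ^ 201 ≤ v ^ 20 / u ^ 1599 := by
      rw [le_div_iff₀ (by positivity)]
      calc v ^ 10 * u ^ 201 * u ^ 1599 = v ^ 10 * u ^ 1800 := by ring
        _ ≤ v ^ 10 * v ^ 10 := by
          have : u ^ 1800 ≤ v ^ 10 := by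
            calc u ^ 1800 ≤ u ^ 2500 := pow_le_pow_right₀ u1 (by norm_num)
              _ ≤ v := hvu
              _ ≤ v ^ 10 := le_self_pow₀ v1 (by norm_num)
          gcongr
        _ = v ^ 20 := by ring
    have t2 : 8 * C2 * (u ^ 201 * (5 * (v ^ 10 / u ^ 900)) ^ 2) = 200 * C2 * (v ^ 20 / u ^ 1599) := by
      field_simp
      ring
    rw [t2]
    calc C1 * (v ^ 10 * u ^ 201) + 200 * C2 * (v ^ 20 / u ^ 1599)
        ≤ C1 * (v ^ 20 / u ^ 1599) + 200 * C2 * (v ^ 20 / u ^ 1599) := by gcongr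
      _ = (C1 + 200 * C2) * (v ^ 20 / u ^ 1599) := by ring
  have T2 : √(54 * (u ^ 200) ^ 2 * A * ((close n D (1 / (A : ℝ))).card : ℝ)) ≤
      v ^ 10 * u ^ 100 / 8 := by
    rw [Real.sqrt_le_left (by positivity)]
    obtain ⟨w, hw⟩ : ∃ w : ℝ, w = v ^ 20 / u ^ 1599 := ⟨_, rfl⟩
    have hw0 : 0 ≤ w := by rw [hw]; positivity
    have hwu : w * u ^ 1700 = u ^ 101 * v ^ 20 := by
      rw [hw, show u ^ 1700 = u ^ 101 * u ^ 1599 by ring, div_mul_eq_mul_div,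
        div_eq_iff (by positivity)]
      ring
    rw [← hw] at c2
    calc 54 * (u ^ 200) ^ 2 * A * ((close n D (1 / (A : ℝ))).card : ℝ)
        ≤ 54 * (u ^ 200) ^ 2 * (2 * u ^ 1300) * ((C1 + 200 * C2) * w) :=
          mul_le_mul (mul_le_mul_of_nonneg_left hAle (by positivity)) c2 (Nat.cast_nonneg _)
            (by positivity)
      _ = 108 * (C1 + 200 * C2) * (w * u ^ 1700) := by ring
      _ = (6912 * (C1 + 200 * C2)) * u ^ 101 * v ^ 20 / 64 := by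
          rw [hwu]; ring
      _ ≤ u * u ^ 101 * v ^ 20 / 64 := by gcongr
      _ = u ^ 102 * v ^ 20 / 64 := by ring
      _ ≤ u ^ 200 * v ^ 20 / 64 := by
          have : u ^ 102 ≤ u ^ 200 := pow_le_pow_right₀ u1 (by norm_num)
          gcongr
      _ = (v ^ 10 * u ^ 100 / 8) ^ 2 := by ring
  -- j
  obtain ⟨j, hj⟩ : ∃ j : ℕ, j = ⌈Real.log n⌉₊ := ⟨_, rfl⟩
  have hlog0 : 0 ≤ Real.log n := Real.log_nonneg hnr
  have hjge : Real.log n ≤ j := by rw [hj]; exact Nat.le_ceil _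
  have hjle : (j : ℝ) ≤ Real.log n + 1 := by rw [hj]; exact (Nat.ceil_lt_add_one hlog0).le
  have hj4 : (1 / 4 : ℝ) ^ j ≤ δ := by
    have h1 : (1 / 4 : ℝ) ^ j ≤ (Real.exp (-1)) ^ j := by
      apply pow_le_pow_left₀ (by norm_num)
      rw [Real.exp_neg, inv_eq_one_div]
      apply one_div_le_one_div_of_le (Real.exp_pos 1)
      have := Real.exp_one_lt_d9
      linarith
    have h2 : (Real.exp (-1)) ^ j = Real.exp (-(j : ℝ)) := by
      rw [← Real.exp_nat_mul]; congr 1; ring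
    have h3 : Real.exp (-(j : ℝ)) ≤ (n : ℝ)⁻¹ := by
      calc Real.exp (-(j : ℝ)) ≤ Real.exp (-Real.log n) := Real.exp_le_exp.2 (by linarith)
        _ = (n : ℝ)⁻¹ := by rw [Real.exp_neg, Real.exp_log hn0]
    have h4 : (n : ℝ)⁻¹ ≤ δ := by
      rw [hδ, hnv]
      apply inv_anti₀ (by positivity)
      exact pow_le_pow_right₀ v1 (by norm_num)
    rw [h2] at h1
    linarith
  have hju : (2 * (j : ℝ) + 1) ≤ (2 / θ + 3) * u := by
    have h1 : Real.log n ≤ (n : ℝ) ^ θ / θ := Real.log_le_rpow_div hn0.le hθ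
    rw [← hu] at h1
    have h2 : u / θ = 1 / θ * u := by ring
    rw [h2] at h1
    have h3 : (2 / θ + 3) * u = 2 * (1 / θ * u) + 3 * u := by ring
    rw [h3]
    linarith
  have hmain := hcount n D hsq (u ^ 200) hB1 hDB δ hδ0 hδ1 j hj4 A hA1
  have T3 : 324 * (u ^ 200) ^ 4 * A * (2 * j + 1) * ((reps n).ncard : ℝ) ≤
      u ^ 2102 * ((reps n).ncard : ℝ) / 2 := by
    have hR0 : (0 : ℝ) ≤ ((reps n).ncard : ℝ) := Nat.cast_nonneg _
    calc 324 * (u ^ 200) ^ 4 * A * (2 * j + 1) * ((reps n).ncard : ℝ)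
        ≤ 324 * (u ^ 200) ^ 4 * (2 * u ^ 1300) * ((2 / θ + 3) * u) * ((reps n).ncard : ℝ) := by
          gcongr
      _ = (1296 * (2 / θ + 3)) * u ^ 2101 * ((reps n).ncard : ℝ) / 2 := by ring
      _ ≤ u * u ^ 2101 * ((reps n).ncard : ℝ) / 2 := by gcongr
      _ = u ^ 2102 * ((reps n).ncard : ℝ) / 2 := by ring
  have hfin : v ^ 10 * u ^ 100 ≤ u ^ 2102 * ((reps n).ncard : ℝ) := by
    have : v ^ 10 * u ^ 100 ≤ v ^ 10 * u ^ 100 / 4 + 2 * (v ^ 10 * u ^ 100 / 8) +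
        u ^ 2102 * ((reps n).ncard : ℝ) / 2 := by
      calc v ^ 10 * u ^ 100 ≤ _ := hL.trans hmain
        _ ≤ _ := by gcongr
    linarith
  have e1 : (n : ℝ) ^ (1 / 2 - 2002 * θ) = v ^ 10 / u ^ 2002 := by
    rw [Real.rpow_sub hn0, ← hvpow 10, ← hupow 2002]
    norm_num
  rw [e1, div_le_iff₀ (by positivity)]
  have h7 : v ^ 10 * u ^ 100 ≤ (((reps n).ncard : ℝ) * u ^ 2002) * u ^ 100 := by
    calc v ^ 10 * u ^ 100 ≤ u ^ 2102 * ((reps n).ncard : ℝ) := hfin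
      _ = _ := by ring
  exact le_of_mul_le_mul_right h7 (by positivity)

end Pool.Agent.H79.KZ
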