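import Pool.Agent.H79.KZ.Chain

/-!
Numbers whose first digits satisfy the parity condition are close to numbers all of whose digits
satisfy it.
-/

set_option autoImplicit false

namespace Pool.Agent.H79.KZ

open Finset Pool.Agent.H843R2.KZ

lemma cons_facts (a : ℤ) (t : ℝ) (ha : 1 ≤ a) (h0 : 0 < t) (h1 : t < 1) (hi : Irrational t) :
    0 < ((a : ℝ) + t)⁻¹ ∧ ((a : ℝ) + t)⁻¹ < 1 ∧ Irrational ((a : ℝ) + t)⁻¹ ∧
    gm ((a : ℝ) + t)⁻¹ = t ∧ dig ((a : ℝ) + t)⁻¹ 0 = a ∧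
    ∀ i, dig ((a : ℝ) + t)⁻¹ (i + 1) = dig t i := by
  have haR : (1 : ℝ) ≤ a := by exact_mod_cast ha
  have hg : gm ((a : ℝ) + t)⁻¹ = t := by
    unfold gm
    rw [inv_inv, Int.fract_intCast_add]
    exact Int.fract_eq_self.2 ⟨h0.le, h1⟩
  refine ⟨by positivity, inv_lt_one_of_one_lt₀ (by linarith), (hi.intCast_add a).inv, hg, ?_, ?_⟩
  · show ⌊(((a : ℝ) + t)⁻¹)⁻¹⌋ = a
    rw [inv_inv, Int.floor_intCast_add, Int.floor_eq_zero_iff.2 ⟨h0.le, h1⟩, add_zero]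
  · intro i
    unfold dig
    rw [Function.iterate_succ_apply, hg]

lemma uncons (s : ℝ) (h0 : 0 < s) (h1 : s < 1) (hi : Irrational s) :
    1 ≤ dig s 0 ∧ s = ((dig s 0 : ℝ) + gm s)⁻¹ ∧ 0 < gm s ∧ gm s < 1 ∧ Irrational (gm s) ∧
    ∀ i, dig (gm s) i = dig s (i + 1) := by
  have hinv : 1 < s⁻¹ := (one_lt_inv₀ h0).2 h1
  have hi' : Irrational s⁻¹ := irrational_inv_iff.mpr hi
  have hg : Irrational (gm s) := by
    unfold gm
    rw [Int.fract]
    exact hi'.sub_intCast _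
  have hg0 : 0 < gm s := by
    have h0 : 0 ≤ gm s := Int.fract_nonneg _
    rcases h0.lt_or_eq with h | h
    · exact h
    · exact absurd h.symm hg.ne_zero
  refine ⟨Int.le_floor.2 (by exact_mod_cast hinv.le), ?_, hg0, Int.fract_lt_one _, hg, ?_⟩
  · have : (dig s 0 : ℝ) + gm s = s⁻¹ := by
      show ((⌊s⁻¹⌋ : ℤ) : ℝ) + Int.fract s⁻¹ = s⁻¹
      exact Int.floor_add_fract _
    rw [this, inv_inv]
  · intro i
    unfold dig
    rw [Function.iterate_succ_apply]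

lemma silver : ∀ c, √2 - 1 ∈ Ev c := by
  intro c
  have h2 : (√2 : ℝ) ^ 2 = 2 := Real.sq_sqrt (by norm_num)
  have h0 : (0 : ℝ) ≤ √2 := Real.sqrt_nonneg 2
  have hlo : (1 : ℝ) < √2 := by
    rw [Real.lt_sqrt (by norm_num)]; norm_num
  have hhi : (√2 : ℝ) < 2 := by
    rw [Real.sqrt_lt' (by norm_num)]; norm_num
  have hirr : Irrational (√2 - 1) := by
    have := irrational_sqrt_two.sub_intCast 1
    simpa using this
  have e : √2 - 1 = (((2 : ℤ) : ℝ) + (√2 - 1))⁻¹ := by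
    apply eq_inv_of_mul_eq_one_left
    push_cast
    nlinarith
  obtain ⟨-, -, -, h4, h5, h6⟩ := cons_facts 2 (√2 - 1) (by norm_num) (by linarith) (by linarith) hirr
  rw [← e] at h4 h5 h6
  refine ⟨by linarith, by linarith, hirr, fun i _ => ?_⟩
  have : ∀ i, dig (√2 - 1) i = 2 := by
    intro i
    induction i with
    | zero => exact h5
    | succ i ih => rw [h6 i]; exact ih
  rw [this i]
  exact ⟨1, rfl⟩

theorem near_Ev (c : ℕ) : ∀ j : ℕ, ∀ s ∈ EvT (2 * j) c, ∃ s' ∈ Ev c, |s - s'| ≤ (1 / 4 : ℝ) ^ j := by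
  intro j
  induction j with
  | zero =>
    intro s hs
    refine ⟨√2 - 1, silver c, ?_⟩
    obtain ⟨h1, h2, -⟩ := silver c
    rw [pow_zero, abs_le]
    constructor <;> linarith [hs.1, hs.2.1]
  | succ j ih =>
    intro s hs
    obtain ⟨h0, h1, hi, hd⟩ := hs
    obtain ⟨a1, a2, a3, a4, a5, a6⟩ := uncons s h0 h1 hi
    obtain ⟨b1, b2, b3, b4, b5, b6⟩ := uncons (gm s) a3 a4 a5
    have hh : gm (gm s) ∈ EvT (2 * j) c := by
      refine ⟨b3, b4, b5, fun i him hic => ?_⟩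
      rw [b6, a6]
      exact hd (i + 1 + 1) (by omega) (by omega)
    obtain ⟨h', hh', hclose⟩ := ih _ hh
    obtain ⟨c1, c2, c3, c4⟩ := hh'
    obtain ⟨d1, d2, d3, d4, d5, d6⟩ := cons_facts (dig (gm s) 0) h' b1 c1 c2 c3
    obtain ⟨g, hg⟩ : ∃ g : ℝ, g = ((dig (gm s) 0 : ℝ) + h')⁻¹ := ⟨_, rfl⟩
    rw [← hg] at d1 d2 d3 d4 d5 d6
    obtain ⟨e1, e2, e3, e4, e5, e6⟩ := cons_facts (dig s 0) g a1 d1 d2 d3
    refine ⟨((dig s 0 : ℝ) + g)⁻¹, ⟨e1, e2, e3, fun i hic => ?_⟩, ?_⟩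
    · rcases i with _ | _ | i
      · rw [e5]; exact hd 0 (by omega) hic
      · rw [e6, d5, a6]; exact hd 1 (by omega) hic
      · rw [e6, d6]; exact c4 i (by omega)
    · obtain ⟨H, hH⟩ : ∃ H : ℝ, H = gm (gm s) := ⟨_, rfl⟩
      obtain ⟨G, hG⟩ : ∃ G : ℝ, G = gm s := ⟨_, rfl⟩
      obtain ⟨A, hA⟩ : ∃ A : ℝ, A = (dig s 0 : ℝ) := ⟨_, rfl⟩
      obtain ⟨B, hB⟩ : ∃ B : ℝ, B = (dig (gm s) 0 : ℝ) := ⟨_, rfl⟩
      have hA1 : 1 ≤ A := by rw [hA]; exact_mod_cast a1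
      have hB1 : 1 ≤ B := by rw [hB]; exact_mod_cast b1
      rw [← hA, ← hG] at a2
      rw [← hB, ← hH, ← hG] at b2
      rw [← hB] at hg
      rw [← hH] at hclose b3 b4
      rw [← hG] at a3 a4
      rw [← hA]
      have k1 : G * (B + H) = 1 := by rw [b2]; exact inv_mul_cancel₀ (by positivity)
      have k2 : s * (A + G) = 1 := by
        conv_lhs => rw [a2]
        exact inv_mul_cancel₀ (by positivity)
      have k3 : g * (B + h') = 1 := by rw [hg]; exact inv_mul_cancel₀ (by positivity)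
      obtain ⟨σ, hσ⟩ : ∃ σ : ℝ, σ = (A + g)⁻¹ := ⟨_, rfl⟩
      have hσ0 : 0 < σ := by rw [hσ]; positivity
      have k4 : σ * (A + g) = 1 := by rw [hσ]; exact inv_mul_cancel₀ (by positivity)
      rw [← hσ]
      have m1 : s * G ≤ 1 / 2 := by nlinarith [mul_pos h0 a3]
      have m2 : σ * g ≤ 1 / 2 := by nlinarith [mul_pos hσ0 d1]
      have hdiff : s - σ = (s * G) * (σ * g) * (H - h') := by
        have t1 : s - σ = s * σ * (g - G) := by
          linear_combination (-s) * k4 + σ * k2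
        have t2 : g - G = g * G * (H - h') := by
          linear_combination (-g) * k1 + G * k3
        rw [t1, t2]; ring
      rw [hdiff, abs_mul, abs_of_nonneg (by positivity)]
      have m3 : (s * G) * (σ * g) ≤ 1 / 4 := by
        have q1 : 0 ≤ s * G := by positivity
        have q2 : 0 ≤ σ * g := by positivity
        nlinarith
      calc (s * G) * (σ * g) * |H - h'| ≤ 1 / 4 * (1 / 4) ^ j := by
            apply mul_le_mul m3 hclose (abs_nonneg _) (by norm_num)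
        _ = (1 / 4) ^ (j + 1) := by ring

/-- the truncated version of `WB` -/
def WBT (m : ℕ) (B : ℝ) : Set ℝ := {w | ∃ p p' q q' : ℤ, ∃ s : ℝ, |(p : ℝ)| ≤ 2 * B + 2 ∧
  |(p' : ℝ)| ≤ 2 * B + 2 ∧ 1 ≤ q ∧ 0 ≤ q' ∧ q' ≤ q ∧ (q : ℝ) ≤ B ∧
  (p * q' - p' * q) ^ 2 = 1 ∧ 0 < s ∧ s < 1 ∧ w = (p + p' * s) / (q + q' * s) ∧
  gm s ∈ EvT m 0 ∪ EvT m 1}

lemma mob_close (p p' q q' : ℤ) (s t δ : ℝ) (hq : 1 ≤ q) (hq' : 0 ≤ q')
    (hdet : (p * q' - p' * q) ^ 2 = 1) (hs : 0 < s) (ht : 0 < t) (hst : |s - t| ≤ δ) :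
    |((p : ℝ) + p' * s) / (q + q' * s) - ((p : ℝ) + p' * t) / (q + q' * t)| ≤ δ := by
  have hqR : (1 : ℝ) ≤ q := by exact_mod_cast hq
  have hqR' : (0 : ℝ) ≤ q' := by exact_mod_cast hq'
  have hd : ((p : ℝ) * q' - p' * q) ^ 2 = 1 := by exact_mod_cast hdet
  have ha : 1 ≤ (q : ℝ) + q' * s := by nlinarith [mul_nonneg hqR' hs.le]
  have hb : 1 ≤ (q : ℝ) + q' * t := by nlinarith [mul_nonneg hqR' ht.le]
  have hab : 1 ≤ ((q : ℝ) + q' * s) * (q + q' * t) := by nlinarith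
  have hdiff : ((p : ℝ) + p' * s) / (q + q' * s) - ((p : ℝ) + p' * t) / (q + q' * t)
      = ((p : ℝ) * q' - p' * q) * (t - s) / (((q : ℝ) + q' * s) * (q + q' * t)) := by
    field_simp
    ring
  have habs : |(p : ℝ) * q' - p' * q| = 1 := by
    have := sq_abs ((p : ℝ) * q' - p' * q)
    rw [hd] at this
    nlinarith [abs_nonneg ((p : ℝ) * q' - p' * q)]
  rw [hdiff, abs_div, abs_mul, habs, one_mul,
    abs_of_pos (by linarith : (0:ℝ) < ((q : ℝ) + q' * s) * (q + q' * t))]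
  calc |t - s| / (((q : ℝ) + q' * s) * (q + q' * t)) ≤ |t - s| / 1 :=
        div_le_div_of_nonneg_left (abs_nonneg _) one_pos hab
    _ = |s - t| := by rw [div_one, abs_sub_comm]
    _ ≤ δ := hst

lemma irrational_of_gm {s : ℝ} (h : Irrational (gm s)) : Irrational s := by
  have : Irrational s⁻¹ := by
    have e : s⁻¹ = (⌊s⁻¹⌋ : ℝ) + gm s := (Int.floor_add_fract s⁻¹).symm
    rw [e]
    exact h.intCast_add _
  exact irrational_inv_iff.mp this

theorem WBT_near (j : ℕ) (B : ℝ) {w : ℝ} (hw : w ∈ WBT (2 * j) B) :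
    ∃ w' ∈ WB B, |w - w'| ≤ (1 / 4 : ℝ) ^ j := by
  obtain ⟨p, p', q, q', s, h1, h2, h3, h4, h5, h6, h7, h8, h9, h10, h11⟩ := hw
  have key : ∃ t ∈ Ev 0 ∪ Ev 1, |gm s - t| ≤ (1 / 4 : ℝ) ^ j := by
    rcases h11 with h | h
    · obtain ⟨t, ht, h'⟩ := near_Ev 0 j _ h
      exact ⟨t, Or.inl ht, h'⟩
    · obtain ⟨t, ht, h'⟩ := near_Ev 1 j _ h
      exact ⟨t, Or.inr ht, h'⟩
  have hg : Irrational (gm s) := by
    rcases h11 with h | h
    · exact h.2.2.1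
    · exact h.2.2.1
  obtain ⟨t, ht, htc⟩ := key
  have ht3 : 0 < t ∧ t < 1 ∧ Irrational t := by
    rcases ht with h | h
    · exact ⟨h.1, h.2.1, h.2.2.1⟩
    · exact ⟨h.1, h.2.1, h.2.2.1⟩
  obtain ⟨a1, a2, a3, a4, a5, a6⟩ := uncons s h8 h9 (irrational_of_gm hg)
  obtain ⟨c1, c2, c3, c4, c5, c6⟩ := cons_facts (dig s 0) t a1 ht3.1 ht3.2.1 ht3.2.2
  have hclose : |s - ((dig s 0 : ℝ) + t)⁻¹| ≤ (1 / 4 : ℝ) ^ j := by
    have haR : (1 : ℝ) ≤ (dig s 0 : ℝ) := by exact_mod_cast a1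
    obtain ⟨A, hA⟩ : ∃ A : ℝ, A = (dig s 0 : ℝ) := ⟨_, rfl⟩
    obtain ⟨G, hG⟩ : ∃ G : ℝ, G = gm s := ⟨_, rfl⟩
    rw [← hA, ← hG] at a2
    rw [← hA] at haR c1 c2 ⊢
    rw [← hG] at htc a3
    obtain ⟨σ, hσ⟩ : ∃ σ : ℝ, σ = (A + t)⁻¹ := ⟨_, rfl⟩
    rw [← hσ] at c1 c2 ⊢
    have k2 : s * (A + G) = 1 := by
      conv_lhs => rw [a2]
      exact inv_mul_cancel₀ (by positivity)
    have k4 : σ * (A + t) = 1 := by
      rw [hσ]; exact inv_mul_cancel₀ (by linarith [ht3.1])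
    have t1 : s - σ = s * σ * (t - G) := by
      linear_combination (-s) * k4 + σ * k2
    rw [t1, abs_mul, abs_of_nonneg (by positivity), abs_sub_comm]
    have : s * σ ≤ 1 := by nlinarith
    calc s * σ * |G - t| ≤ 1 * (1 / 4) ^ j :=
          mul_le_mul this htc (abs_nonneg _) (by norm_num)
      _ = (1 / 4) ^ j := one_mul _
  refine ⟨(p + p' * ((dig s 0 : ℝ) + t)⁻¹) / (q + q' * ((dig s 0 : ℝ) + t)⁻¹),
    ⟨p, p', q, q', _, h1, h2, h3, h4, h5, h6, h7, c1, c2, rfl, by rw [c4]; exact ht⟩, ?_⟩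
  rw [h10]
  exact mob_close p p' q q' s _ _ h3 h4 h7 h8 c1 hclose

theorem WBT_cov {j : ℕ} {B δ N : ℝ} (hj : (1 / 4 : ℝ) ^ j ≤ δ) (h : Cov (WB B) δ N) :
    Cov (WBT (2 * j) B) δ (3 * N) := by
  classical
  obtain ⟨F, hF, hc⟩ := h
  refine ⟨F ∪ (F.image (fun f => f - δ) ∪ F.image (fun f => f + δ)), ?_, ?_⟩
  · have h1 : (F ∪ (F.image (fun f => f - δ) ∪ F.image (fun f => f + δ))).card ≤ 3 * F.card := by
      refine (card_union_le _ _).trans ?_
      have h2 := card_union_le (F.image (fun f => f - δ)) (F.image (fun f => f + δ))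
      have h3 : (F.image (fun f => f - δ)).card ≤ F.card := card_image_le
      have h4 : (F.image (fun f => f + δ)).card ≤ F.card := card_image_le
      omega
    have h5 : ((F ∪ (F.image (fun f => f - δ) ∪ F.image (fun f => f + δ))).card : ℝ) ≤
        3 * F.card := by exact_mod_cast h1
    linarith
  · intro w hw
    obtain ⟨w', hw', hcl⟩ := WBT_near j B hw
    obtain ⟨f, hf, h1, h2⟩ := hc w' hw'
    have h3 := abs_le.1 (hcl.trans hj)
    rcases lt_or_ge w f with h4 | h4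
    · refine ⟨f - δ, ?_, by linarith, by linarith⟩
      exact mem_union_right _ (mem_union_left _ (mem_image_of_mem _ hf))
    · rcases le_or_gt w (f + δ) with h5 | h5
      · exact ⟨f, mem_union_left _ hf, h4, h5⟩
      · refine ⟨f + δ, ?_, by linarith, by linarith⟩
        exact mem_union_right _ (mem_union_right _ (mem_image_of_mem _ hf))

end Pool.Agent.H79.KZ
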